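import Mathlib

set_option autoImplicit false

/-!
Graphs without an induced path on four vertices: Seinsche's theorem and twins.
-/

namespace Pool.Agent.H58.K2

section
variable {X : Type} [DecidableEq X] (M : X → X → ZMod 2)

/-- no induced path on four vertices -/
def NoP4 : Prop := ∀ a b c d, a ≠ b → a ≠ c → a ≠ d → b ≠ c → b ≠ d → c ≠ d →
  M a b = 1 → M b c = 1 → M c d = 1 → M a c = 0 → M a d = 0 → M b d = 0 → False

variable {M}

lemma zt' (a c : ZMod 2) (h : a ≠ c) : a = c + 1 := by
  revert a c; decide

lemma zt'' (a c : ZMod 2) (h : a ≠ c + 1) : a = c := by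
  revert a c; decide

lemma z01 (c : ZMod 2) : c = 0 ∨ c = 1 := by
  revert c; decide

/-- no path on four vertices in the graph of the pairs with value `c + 1` -/
lemma NoP4.gen (hP : NoP4 M) (hs : ∀ x y, M x y = M y x) (c : ZMod 2) {q p v r : X}
    (n1 : q ≠ p) (n2 : q ≠ v) (n3 : q ≠ r) (n4 : p ≠ v) (n5 : p ≠ r) (n6 : v ≠ r)
    (h1 : M q p = c + 1) (h2 : M p v = c + 1) (h3 : M v r = c + 1)
    (h4 : M q v = c) (h5 : M q r = c) (h6 : M p r = c) : False := by
  rcases z01 c with rfl | rfl
  · exact hP q p v r n1 n2 n3 n4 n5 n6 h1 h2 h3 h4 h5 h6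
  · have e : (1 : ZMod 2) + 1 = 0 := by decide
    rw [e] at h1 h2 h3
    exact hP p r q v n5 (Ne.symm n1) n4 (Ne.symm n3) (Ne.symm n6) n2 h6 (by rw [hs]; exact h5) h4
      (by rw [hs]; exact h1) h2 (by rw [hs]; exact h3)

/-- **Seinsche**: the vertices split into two parts with all cross pairs equal -/
theorem seinsche (hs : ∀ x y, M x y = M y x) (hP : NoP4 M) (S : Finset X) (h2 : 2 ≤ S.card) :
    ∃ (A B : Finset X) (c : ZMod 2), A.Nonempty ∧ B.Nonempty ∧ A ∪ B = S ∧ Disjoint A B ∧
      ∀ a ∈ A, ∀ b ∈ B, M a b = c := by
  induction S using Finset.induction_on with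
  | empty => simp at h2
  | @insert v S' hv ih =>
    rw [Finset.card_insert_of_notMem hv] at h2
    by_cases hc : 2 ≤ S'.card
    · obtain ⟨A, B, c, hA, hB, hAB, hdis, hcr⟩ := ih hc
      -- case (i)
      have case1 : ∀ K : Finset X, K.Nonempty → K ⊆ S' → (∀ a ∈ K, ∀ b ∈ S' \ K, M a b = c) →
          (∀ a ∈ K, M v a = c) → ∃ (A B : Finset X) (c : ZMod 2), A.Nonempty ∧ B.Nonempty ∧
            A ∪ B = insert v S' ∧ Disjoint A B ∧ ∀ a ∈ A, ∀ b ∈ B, M a b = c := by
        intro K hK hKS hKc hvK
        have hvK' : v ∉ K := fun h => hv (hKS h)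
        refine ⟨K, insert v (S' \ K), c, hK, ⟨v, Finset.mem_insert_self _ _⟩, ?_, ?_, ?_⟩
        · ext x
          simp only [Finset.mem_union, Finset.mem_insert, Finset.mem_sdiff]
          constructor
          · rintro (h | h | h)
            · exact Or.inr (hKS h)
            · exact Or.inl h
            · exact Or.inr h.1
          · rintro (h | h)
            · exact Or.inr (Or.inl h)
            · by_cases hx : x ∈ K
              · exact Or.inl hx
              · exact Or.inr (Or.inr ⟨h, hx⟩)
        · rw [Finset.disjoint_left]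
          intro x hx hx'
          rw [Finset.mem_insert, Finset.mem_sdiff] at hx'
          rcases hx' with h | h
          · exact hvK' (h ▸ hx)
          · exact h.2 hx
        · intro a ha b hb
          rw [Finset.mem_insert] at hb
          rcases hb with h | h
          · rw [h, hs]; exact hvK a ha
          · exact hKc a ha b h
      by_cases hall : ∀ w ∈ S', M v w = c + 1
      · refine ⟨{v}, S', c + 1, Finset.singleton_nonempty v, ?_, ?_, ?_, ?_⟩
        · exact Finset.card_pos.1 (by omega)
        · rw [Finset.insert_eq]
        · rw [Finset.disjoint_singleton_left]; exact hv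
        · intro a ha b hb
          rw [Finset.mem_singleton] at ha
          rw [ha]
          exact hall b hb
      · push Not at hall
        obtain ⟨w, hw, hwc⟩ := hall
        have hwc' : M v w = c := zt'' _ _ hwc
        -- the main step, for `w` in one of the two parts
        have main : ∀ A B : Finset X, B.Nonempty → A ∪ B = S' → Disjoint A B →
            (∀ a ∈ A, ∀ b ∈ B, M a b = c) → w ∈ A →
            ∃ (A B : Finset X) (c : ZMod 2), A.Nonempty ∧ B.Nonempty ∧
            A ∪ B = insert v S' ∧ Disjoint A B ∧ ∀ a ∈ A, ∀ b ∈ B, M a b = c := by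
          intro A B hB hAB hdis hcr hwA
          have hAS : A ⊆ S' := hAB ▸ Finset.subset_union_left
          have hBS : B ⊆ S' := hAB ▸ Finset.subset_union_right
          have hsep : ∀ a ∈ A, ∀ b ∈ S' \ A, M a b = c := by
            intro a ha b hb
            rw [Finset.mem_sdiff, ← hAB, Finset.mem_union] at hb
            exact hcr a ha b (hb.1.resolve_left hb.2)
          obtain ⟨K, hK, hKmin⟩ := Finset.exists_min_image
            (A.powerset.filter fun K => w ∈ K ∧ ∀ a ∈ K, ∀ b ∈ S' \ K, M a b = c)
            (fun K => K.card) ⟨A, by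
              rw [Finset.mem_filter, Finset.mem_powerset]
              exact ⟨Finset.Subset.refl _, hwA, hsep⟩⟩
          rw [Finset.mem_filter, Finset.mem_powerset] at hK
          obtain ⟨hKA, hwK, hKc⟩ := hK
          have hKS : K ⊆ S' := hKA.trans hAS
          by_cases hK1 : ∀ a ∈ K, M v a = c
          · exact case1 K ⟨w, hwK⟩ hKS hKc hK1
          · by_cases hB1 : ∀ b ∈ B, M v b = c
            · refine case1 B hB hBS ?_ hB1
              intro b hb a ha
              rw [Finset.mem_sdiff, ← hAB, Finset.mem_union] at ha
              rw [hs]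
              exact hcr a (ha.1.resolve_right ha.2) b hb
            · exfalso
              push Not at hK1 hB1
              obtain ⟨p0, hp0, hp0c⟩ := hK1
              obtain ⟨r, hr, hrc⟩ := hB1
              -- an edge inside `K`
              have hedge : ∃ p ∈ K, ∃ q ∈ K, M v p ≠ c ∧ M v q = c ∧ M q p ≠ c := by
                by_contra hno
                push Not at hno
                have hmem : K.filter (fun a => M v a = c) ∈
                    A.powerset.filter fun K => w ∈ K ∧ ∀ a ∈ K, ∀ b ∈ S' \ K, M a b = c := by
                  rw [Finset.mem_filter, Finset.mem_powerset]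
                  refine ⟨(Finset.filter_subset _ _).trans hKA, ?_, ?_⟩
                  · rw [Finset.mem_filter]; exact ⟨hwK, hwc'⟩
                  · intro a ha b hb
                    rw [Finset.mem_filter] at ha
                    rw [Finset.mem_sdiff, Finset.mem_filter] at hb
                    by_cases hbK : b ∈ K
                    · exact hno b hbK a ha.1 (fun h => hb.2 ⟨hbK, h⟩) ha.2
                    · exact hKc a ha.1 b (Finset.mem_sdiff.2 ⟨hb.1, hbK⟩)
                have h1 := hKmin _ hmem
                have h3 : (K.filter (fun a => M v a = c)).card < K.card := by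
                  apply Finset.card_lt_card
                  rw [Finset.ssubset_iff_subset_ne]
                  refine ⟨Finset.filter_subset _ _, ?_⟩
                  intro h
                  rw [← h, Finset.mem_filter] at hp0
                  exact hp0c hp0.2
                omega
              obtain ⟨p, hp, q, hq, hp1, hq1, hqp⟩ := hedge
              have hrK : r ∉ K := fun h => Finset.disjoint_left.1 hdis (hKA h) hr
              have hrS : r ∈ S' \ K := Finset.mem_sdiff.2 ⟨hBS hr, hrK⟩
              have hvp : v ≠ p := fun h => hv (h ▸ hKS hp)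
              have hvq : v ≠ q := fun h => hv (h ▸ hKS hq)
              have hvr : v ≠ r := fun h => hv (h ▸ hBS hr)
              refine hP.gen hs c (q := q) (p := p) (v := v) (r := r) ?_ (Ne.symm hvq) ?_
                (Ne.symm hvp) ?_ hvr (zt' _ _ hqp) ?_ (zt' _ _ hrc) ?_ (hKc q hq r hrS)
                (hKc p hp r hrS)
              · rintro rfl; exact hp1 hq1
              · rintro rfl; exact hrK hq
              · rintro rfl; exact hrK hp
              · rw [hs]; exact zt' _ _ hp1
              · rw [hs]; exact hq1
        rw [← hAB, Finset.mem_union] at hw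
        rcases hw with h | h
        · exact main A B hB hAB hdis hcr h
        · refine main B A hA ?_ hdis.symm ?_ h
          · rw [Finset.union_comm]; exact hAB
          · intro b hb a ha
            rw [hs]; exact hcr a ha b hb
    · have hc1 : S'.card = 1 := by omega
      obtain ⟨w, rfl⟩ := Finset.card_eq_one.1 hc1
      refine ⟨{v}, {w}, M v w, Finset.singleton_nonempty v, Finset.singleton_nonempty w, ?_, ?_, ?_⟩
      · rfl
      · rw [Finset.disjoint_singleton_left]; exact hv
      · intro a ha b hb
        rw [Finset.mem_singleton] at ha hb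
        rw [ha, hb]

/-- twins inside a set -/
theorem twins_in (hs : ∀ x y, M x y = M y x) (hP : NoP4 M) (n : ℕ) :
    ∀ S : Finset X, S.card ≤ n → 2 ≤ S.card →
      ∃ x ∈ S, ∃ y ∈ S, x ≠ y ∧ ∀ w ∈ S, w ≠ x → w ≠ y → M w x = M w y := by
  induction n with
  | zero => intro S h1 h2; omega
  | succ n ih =>
    intro S h1 h2
    obtain ⟨A, B, c, hA, hB, hAB, hdis, hcr⟩ := seinsche hs hP S h2
    have hcard : A.card + B.card = S.card := by
      rw [← hAB, Finset.card_union_of_disjoint hdis]
    have hA1 := hA.card_pos
    have hB1 := hB.card_pos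
    have hAS : A ⊆ S := hAB ▸ Finset.subset_union_left
    have hBS : B ⊆ S := hAB ▸ Finset.subset_union_right
    by_cases hA2 : 2 ≤ A.card
    · obtain ⟨x, hx, y, hy, hxy, h⟩ := ih A (by omega) hA2
      refine ⟨x, hAS hx, y, hAS hy, hxy, ?_⟩
      intro w hw hwx hwy
      rw [← hAB, Finset.mem_union] at hw
      rcases hw with hw | hw
      · exact h w hw hwx hwy
      · rw [hs w x, hs w y, hcr x hx w hw, hcr y hy w hw]
    · by_cases hB2 : 2 ≤ B.card
      · obtain ⟨x, hx, y, hy, hxy, h⟩ := ih B (by omega) hB2
        refine ⟨x, hBS hx, y, hBS hy, hxy, ?_⟩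
        intro w hw hwx hwy
        rw [← hAB, Finset.mem_union] at hw
        rcases hw with hw | hw
        · rw [hcr w hw x hx, hcr w hw y hy]
        · exact h w hw hwx hwy
      · obtain ⟨x, rfl⟩ := Finset.card_eq_one.1 (show A.card = 1 by omega)
        obtain ⟨y, rfl⟩ := Finset.card_eq_one.1 (show B.card = 1 by omega)
        refine ⟨x, hAS (Finset.mem_singleton_self x), y, hBS (Finset.mem_singleton_self y), ?_, ?_⟩
        · rintro rfl
          exact Finset.disjoint_left.1 hdis (Finset.mem_singleton_self x)
            (Finset.mem_singleton_self x)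
        · intro w hw hwx hwy
          rw [← hAB, Finset.mem_union, Finset.mem_singleton, Finset.mem_singleton] at hw
          rcases hw with h | h
          · exact absurd h hwx
          · exact absurd h hwy

end

/-- **twins** in a graph without an induced path on four vertices -/
theorem twins {X : Type} [Fintype X] [DecidableEq X] (M : X → X → ZMod 2)
    (hs : ∀ x y, M x y = M y x)
    (hP : ∀ a b c d, a ≠ b → a ≠ c → a ≠ d → b ≠ c → b ≠ d → c ≠ d →
      M a b = 1 → M b c = 1 → M c d = 1 → M a c = 0 → M a d = 0 → M b d = 0 → False)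
    (h2 : 2 ≤ Fintype.card X) : ∃ x y, x ≠ y ∧ ∀ w, w ≠ x → w ≠ y → M w x = M w y := by
  obtain ⟨x, -, y, -, hxy, h⟩ := twins_in hs hP (Fintype.card X) Finset.univ le_rfl h2
  exact ⟨x, y, hxy, fun w => h w (Finset.mem_univ w)⟩

end Pool.Agent.H58.K2
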