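import Pool.Agent.H58.K2.Tree
import Pool.Agent.H98.Code.Defs

set_option autoImplicit false
set_option linter.unusedSectionVars false

/-!
Two trees and a tight code: the guards are constant (MP_a46c6f_co, the step k = 2).
-/

namespace Pool.Agent.H58.K2

open Pool.Agent.H98.Code

/-! ### trees of Mathlib -/

section tree
variable {V : Type}

lemma treeLike_of_isTree {T : SimpleGraph V} (hT : T.IsTree) : TreeLike T := by
  classical
  refine ⟨?_, ?_⟩
  · intro f hf x y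
    obtain ⟨p⟩ := hT.1.preconnected x y
    induction p with
    | nil => rfl
    | cons h _ ih => rw [hf _ _ h]; exact ih
  · intro m m' hadj
    have hb : T.IsBridge s(m, m') :=
      (SimpleGraph.isAcyclic_iff_forall_isBridge.1 hT.2) (by simpa using hadj)
    rw [SimpleGraph.isBridge_iff] at hb
    refine ⟨fun x => if (T.deleteEdges {s(m, m')}).Reachable m x then 0 else 1,
      hadj, ?_, ?_, ?_⟩
    · simp
    · simp only [if_neg hb]
    · intro x y hxy hne
      by_contra hcon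
      apply hne
      have hs : s(x, y) ≠ s(m, m') := by
        intro h
        rw [Sym2.eq_iff] at h
        exact hcon h
      have hadj' : (T.deleteEdges {s(m, m')}).Adj x y := by
        rw [SimpleGraph.deleteEdges_adj]
        exact ⟨hxy, fun h => hs h⟩
      have hr : (T.deleteEdges {s(m, m')}).Reachable m x ↔
          (T.deleteEdges {s(m, m')}).Reachable m y :=
        ⟨fun h => h.trans hadj'.reachable, fun h => h.trans hadj'.symm.reachable⟩
      simp only [hr]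

end tree

/-! ### sums with few terms -/

section sums
variable {V : Type} [Fintype V] [DecidableEq V]

lemma two_sum {f : V → ZMod 2} {p q : V} (hpq : p ≠ q) (h : ∀ x, x ≠ p → x ≠ q → f x = 0)
    (hs : ∑ x, f x = 0) : f p = f q := by
  rw [Finset.sum_eq_add p q hpq (fun c _ hc => h c hc.1 hc.2) (by simp) (by simp)] at hs
  exact eq_of_add hs

lemma three_sum {f : V → ZMod 2} {g p q : V} (hgp : g ≠ p) (hgq : g ≠ q) (hpq : p ≠ q)
    (h : ∀ x, x ≠ g → x ≠ p → x ≠ q → f x = 0) (hs : ∑ x, f x = 0) :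
    f g + (f p + f q) = 0 := by
  rw [← hs]
  have : ∑ x ∈ ({g, p, q} : Finset V), f x = ∑ x, f x := by
    refine Finset.sum_subset (Finset.subset_univ _) ?_
    intro x _ hx
    simp only [Finset.mem_insert, Finset.mem_singleton, not_or] at hx
    exact h x hx.1 hx.2.1 hx.2.2
  rw [← this]
  rw [Finset.sum_insert (by simp [hgp, hgq]), Finset.sum_insert (by simp [hpq]),
    Finset.sum_singleton]

variable {T : SimpleGraph V} [DecidableRel T.Adj]

/-- one side: the potential `S` has the source `g` and one of the ends of `m m'` -/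
lemma oneSide (hT : TreeLike T) {m m' g α₀ α₁ : V} {σ S : V → ZMod 2} {h : ZMod 2}
    (hσ : IsSide T m m' σ) (h0 : σ α₀ = 0) (h1 : σ α₁ = 1) (hS0 : S α₀ = h) (hS1 : S α₁ = h)
    (hgm : g ≠ m) (hgm' : g ≠ m') (hg : lap T S g = 1)
    (hx : ∀ x, x ≠ g → lap T S x = 0 ∨ lap T S x = lap T σ x)
    (hm : lap T S m = 1 → S m = h + 1) (hm0 : lap T S m = 0 → S m = h)
    (hm' : lap T S m' = 1 → S m' = h + 1) (hm0' : lap T S m' = 0 → S m' = h) : False := by
  have hne : m ≠ m' := hσ.1.ne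
  have hz : ∀ x, x ≠ g → x ≠ m → x ≠ m' → lap T S x = 0 := by
    intro x h1 h2 h3
    rcases hx x h1 with h | h
    · exact h
    · rw [h, lap_side hσ, if_neg (by tauto)]
  have hs := three_sum hgm hgm' hne hz (sum_lap T S)
  rw [hg] at hs
  rcases zt (lap T S m) with e | e <;> rcases zt (lap T S m') with e' | e'
  · rw [e, e'] at hs; exact absurd hs (by decide)
  · -- the source is `m'`
    have hS : ∀ x, lap T S x = if x = m' ∨ x = g then 1 else 0 := by
      intro x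
      by_cases h1 : x = m'
      · rw [h1, if_pos (Or.inl rfl), e']
      · by_cases h2 : x = g
        · rw [h2, if_pos (Or.inr rfl), hg]
        · rw [if_neg (by tauto)]
          by_cases h3 : x = m
          · rw [h3, e]
          · exact hz x h2 h3 h1
    have hc : S m' ≠ S m := by
      rw [hm' e', hm0 e]
      intro h'
      have : ∀ k : ZMod 2, k + 1 ≠ k := by decide
      exact this _ h'
    have := hT.const_side hσ.symm hgm' hS hc α₁ (by simp only [h1]; decide)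
    rw [hS1, hm' e'] at this
    have h2 : ∀ k : ZMod 2, k ≠ k + 1 := by decide
    exact h2 _ this
  · have hS : ∀ x, lap T S x = if x = m ∨ x = g then 1 else 0 := by
      intro x
      by_cases h1 : x = m
      · rw [h1, if_pos (Or.inl rfl), e]
      · by_cases h2 : x = g
        · rw [h2, if_pos (Or.inr rfl), hg]
        · rw [if_neg (by tauto)]
          by_cases h3 : x = m'
          · rw [h3, e']
          · exact hz x h2 h1 h3
    have hc : S m ≠ S m' := by
      rw [hm e, hm0' e']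
      intro h'
      have : ∀ k : ZMod 2, k + 1 ≠ k := by decide
      exact this _ h'
    have := hT.const_side hσ hgm hS hc α₀ h0
    rw [hS0, hm e] at this
    have h2 : ∀ k : ZMod 2, k ≠ k + 1 := by decide
    exact h2 _ this
  · rw [e, e'] at hs; exact absurd hs (by decide)

end sums

/-! ### two trees -/

section two
variable {V₀ V₁ : Type} [Fintype V₀] [DecidableEq V₀] [Fintype V₁] [DecidableEq V₁]
variable (T₀ : SimpleGraph V₀) [DecidableRel T₀.Adj] (T₁ : SimpleGraph V₁) [DecidableRel T₁.Adj]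

/-- the guards `a : V₁ → V₀` and `b : V₀ → V₁` are adjoint -/
def Gadj (a : V₁ → V₀) (b : V₀ → V₁) : Prop :=
  ∀ (S : V₀ → ZMod 2) (H : V₁ → ZMod 2),
    ∑ x, lap T₀ S x * H (b x) = ∑ q, S (a q) * lap T₁ H q

/-- there is no direct pair of edges -/
def Ndp (a : V₁ → V₀) (b : V₀ → V₁) : Prop :=
  ∀ (m m' : V₀) (σ : V₀ → ZMod 2) (q0 q1 : V₁) (τ : V₁ → ZMod 2),
    IsSide T₀ m m' σ → IsSide T₁ q0 q1 τ → σ (a q1) = 0 → σ (a q0) = 1 →
    τ (b m) = 1 → τ (b m') = 0 → False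

variable {T₀ T₁} {a : V₁ → V₀} {b : V₀ → V₁}

lemma Gadj.swap (h : Gadj T₀ T₁ a b) : Gadj T₁ T₀ b a := by
  intro S H
  have := h H S
  rw [Finset.sum_congr rfl (fun x _ => mul_comm (lap T₀ H x) (S (b x))),
    Finset.sum_congr rfl (fun x _ => mul_comm (H (a x)) (lap T₁ S x))] at this
  exact this.symm

lemma Ndp.swap (h : Ndp T₀ T₁ a b) : Ndp T₁ T₀ b a := by
  intro q0 q1 τ m m' σ h1 h2 h3 h4 h5 h6
  exact h m m' σ q0 q1 τ h2 h1 h6 h5 h4 h3

lemma Gadj.lap_eq (h : Gadj T₀ T₁ a b) {q0 q1 : V₁} {τ : V₁ → ZMod 2} (hτ : IsSide T₁ q0 q1 τ)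
    (x : V₀) : lap T₀ (fun y => τ (b y)) x
      = (if x = a q0 then 1 else 0) + (if x = a q1 then 1 else 0) := by
  have e := h (fun y => if y = x then 1 else 0) τ
  have e2 := lap_symm T₀ (fun y => if y = x then 1 else 0) (fun y => τ (b y))
  rw [e2] at e
  simp only [ite_mul, one_mul, zero_mul, Finset.sum_ite_eq', Finset.mem_univ, if_true] at e
  rw [e]
  have hne : q0 ≠ q1 := hτ.1.ne
  rw [Finset.sum_eq_add q0 q1 hne ?_ (by simp) (by simp)]
  · rw [lap_side hτ, lap_side hτ, if_pos (Or.inl rfl : q0 = q0 ∨ q0 = q1),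
      if_pos (Or.inr rfl : q1 = q0 ∨ q1 = q1)]
    simp only [eq_comm]
  · intro c _ hc
    have hc' : ¬ (c = q0 ∨ c = q1) := by tauto
    rw [lap_side hτ, if_neg hc']
    simp

lemma Gadj.edge (h : Gadj T₀ T₁ a b) {q0 q1 : V₁} {τ : V₁ → ZMod 2} (hτ : IsSide T₁ q0 q1 τ)
    {m m' : V₀} {σ : V₀ → ZMod 2} (hσ : IsSide T₀ m m' σ) :
    τ (b m) + τ (b m') = σ (a q0) + σ (a q1) := by
  have e := h σ τ
  have hne : q0 ≠ q1 := hτ.1.ne
  have hne' : m ≠ m' := hσ.1.ne
  rw [Finset.sum_eq_add m m' hne' ?_ (by simp) (by simp),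
    Finset.sum_eq_add q0 q1 hne ?_ (by simp) (by simp)] at e
  · rw [lap_side hτ, lap_side hτ, if_pos (Or.inl rfl : q0 = q0 ∨ q0 = q1),
      if_pos (Or.inr rfl : q1 = q0 ∨ q1 = q1), lap_side hσ, lap_side hσ,
      if_pos (Or.inl rfl : m = m ∨ m = m'), if_pos (Or.inr rfl : m' = m ∨ m' = m')] at e
    simpa using e
  · intro c _ hc
    rw [lap_side hτ, if_neg (by tauto)]
    simp
  · intro c _ hc
    rw [lap_side hσ, if_neg (by tauto)]
    simp

lemma exists_nb {f : V₀ → ZMod 2} {u : V₀} (h : lap T₀ f u = 1) : ∃ y, T₀.Adj u y ∧ f y ≠ f u := by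
  by_contra hcon
  push Not at hcon
  have : lap T₀ f u = 0 := by
    simp only [lap]
    refine Finset.sum_eq_zero fun y _ => ?_
    by_cases hy : T₀.Adj u y
    · rw [if_pos hy, hcon y hy, add_self]
    · rw [if_neg hy]
  rw [this] at h
  exact absurd h (by decide)

lemma exists_nb2 {f : V₀ → ZMod 2} {u v : V₀} (h : lap T₀ f u = 0) (hv : T₀.Adj u v)
    (hf : f v ≠ f u) : ∃ y, T₀.Adj u y ∧ y ≠ v ∧ f y ≠ f u := by
  by_contra hcon
  push Not at hcon
  have : lap T₀ f u = 1 := by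
    simp only [lap]
    rw [Finset.sum_eq_single v]
    · rw [if_pos hv, add_ne (Ne.symm hf)]
    · intro y _ hy
      by_cases hy' : T₀.Adj u y
      · rw [if_pos hy', hcon y hy' hy, add_self]
      · rw [if_neg hy']
    · simp
  rw [this] at h
  exact absurd h (by decide)

/-- the edge step -/
lemma edge_step (hT₀ : TreeLike T₀) (hg : Gadj T₀ T₁ a b) (hn : Ndp T₀ T₁ a b)
    {q0 q1 : V₁} {τ : V₁ → ZMod 2} (hτ : IsSide T₁ q0 q1 τ) (hne : a q0 ≠ a q1) :
    ∃ σ, IsSide T₀ (a q1) (a q0) σ ∧ ∀ x, τ (b x) = σ x := by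
  have hl := hg.lap_eq hτ
  have hu : lap T₀ (fun y => τ (b y)) (a q1) = 1 := by
    rw [hl, if_neg (Ne.symm hne), if_pos rfl]; decide
  obtain ⟨y, hy, hfy⟩ := exists_nb hu
  rcases zt (τ (b (a q1))) with h0 | h1
  · have hy1 : τ (b y) = 1 := by
      rcases zt (τ (b y)) with h | h
      · exact absurd (h.trans h0.symm) hfy
      · exact h
    by_cases hyu : y = a q0
    · subst hyu
      obtain ⟨σ, hσ⟩ := hT₀.side _ _ hy
      refine ⟨σ, hσ, ?_⟩
      have hc : ∀ x, lap T₀ (fun y => τ (b y) + σ y) x = 0 := by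
        intro x
        rw [lap_add T₀ (fun y => τ (b y)) σ x, hl, lap_side hσ]
        by_cases e0 : x = a q0
        · subst e0
          rw [if_pos rfl, if_neg hne, if_pos (Or.inr rfl)]; decide
        · by_cases e1 : x = a q1
          · subst e1
            rw [if_neg e0, if_pos rfl, if_pos (Or.inl rfl)]; decide
          · rw [if_neg e0, if_neg e1, if_neg (by tauto)]; decide
      intro x
      have := hT₀.const hc x (a q1)
      simp only [h0, hσ.2.1] at this
      exact eq_of_add (by rw [this]; decide)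
    · exfalso
      have hyu1 : y ≠ a q1 := fun h => hfy (by rw [h])
      have hl0 : lap T₀ (fun y => τ (b y)) y = 0 := by
        rw [hl, if_neg hyu, if_neg hyu1]; decide
      obtain ⟨y2, hy2, hy2u, hfy2⟩ := exists_nb2 hl0 hy.symm (fun h => hfy h.symm)
      have hy20 : τ (b y2) = 0 := by
        rcases zt (τ (b y2)) with h | h
        · exact h
        · exact absurd (h.trans hy1.symm) hfy2
      obtain ⟨σ, hσ⟩ := hT₀.side _ _ hy2
      have hσ1 : σ (a q1) = 0 := by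
        by_contra hcon
        have hd : σ y ≠ σ (a q1) := by
          rw [hσ.2.1]; exact fun h => hcon h.symm
        rcases hσ.2.2.2 y (a q1) hy.symm hd with ⟨_, h⟩ | ⟨h, _⟩
        · exact hy2u h.symm
        · exact hy2.ne h
      have he := hg.edge hτ hσ
      rw [hy1, hy20, hσ1] at he
      have hσ0 : σ (a q0) = 1 := by
        rw [add_zero, add_zero] at he; exact he.symm
      exact hn y y2 σ q0 q1 τ hσ hτ hσ1 hσ0 hy1 hy20
  · exfalso
    have hy0 : τ (b y) = 0 := by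
      rcases zt (τ (b y)) with h | h
      · exact h
      · exact absurd (h.trans h1.symm) hfy
    obtain ⟨σ, hσ⟩ := hT₀.side _ _ hy
    have he := hg.edge hτ hσ
    rw [h1, hy0, hσ.2.1] at he
    have hσ0 : σ (a q0) = 1 := by
      rw [add_zero, add_zero] at he; exact he.symm
    exact hn (a q1) y σ q0 q1 τ hσ hτ hσ.2.1 hσ0 h1 hy0

/-- a nonconstant guard gives crossing edges -/
lemma nonconst (hT₀ : TreeLike T₀) (hT₁ : TreeLike T₁) (hg : Gadj T₀ T₁ a b)
    (hn : Ndp T₀ T₁ a b) (hc : ¬ ∀ q q', a q = a q') :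
    ∃ (m m' : V₀) (σ : V₀ → ZMod 2) (q0 q1 : V₁) (τ : V₁ → ZMod 2),
      IsSide T₀ m m' σ ∧ IsSide T₁ q0 q1 τ ∧ (∀ x, τ (b x) = σ x) ∧ ∀ q, σ (a q) = τ q + 1 := by
  have h1 : ∃ q0 q1, T₁.Adj q0 q1 ∧ a q0 ≠ a q1 := by
    by_contra hcon
    push Not at hcon
    apply hc
    intro q q'
    have := hT₁.conn (fun r => if a r = a q then 1 else 0)
      (fun x y hxy => by simp only [hcon x y hxy]) q q'
    simp only [if_true] at this
    by_contra hne
    rw [if_neg (Ne.symm hne)] at this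
    exact absurd this (by decide)
  obtain ⟨q0, q1, hadj, hne⟩ := h1
  obtain ⟨τ, hτ⟩ := hT₁.side _ _ hadj
  obtain ⟨σ, hσ, hστ⟩ := edge_step hT₀ hg hn hτ hne
  have hne2 : b (a q1) ≠ b (a q0) := by
    intro h
    have e1 := hστ (a q1)
    have e2 := hστ (a q0)
    rw [h, e2, hσ.2.1, hσ.2.2.1] at e1
    exact absurd e1 (by decide)
  obtain ⟨τ', hτ', hτσ⟩ := edge_step hT₁ hg.swap hn.swap hσ hne2
  have e0 : τ' q0 = 1 := by rw [← hτσ, hσ.2.2.1]
  have e1 : τ' q1 = 0 := by rw [← hτσ, hσ.2.1]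
  have hd : τ' q0 ≠ τ' q1 := by rw [e0, e1]; decide
  refine ⟨_, _, σ, q0, q1, τ, hσ, hτ, hστ, ?_⟩
  have hlap : ∀ q, lap T₁ (fun r => τ r + τ' r) q = 0 := by
    intro q
    rw [lap_add T₁ τ τ' q, lap_side hτ, lap_side hτ']
    rcases hτ'.2.2.2 q0 q1 hadj hd with ⟨h, h'⟩ | ⟨h, h'⟩
    · rw [← h, ← h', add_self]
    · rw [← h, ← h']
      have : (q = q1 ∨ q = q0) ↔ (q = q0 ∨ q = q1) := by tauto
      simp only [this, add_self]
  intro q
  have := hT₁.const hlap q q0
  simp only [e0, hτ.2.1] at this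
  rw [hτσ]
  have key : ∀ u v : ZMod 2, u + v = 0 + 1 → v = u + 1 := by decide
  exact key _ _ this

/-- the part of `w` without `lap H` -/
lemma part_const (hT₁ : TreeLike T₁) {σ : V₀ → ZMod 2} {q0 q1 : V₁}
    {τ : V₁ → ZMod 2} (hτ : IsSide T₁ q0 q1 τ)
    {S : V₀ → ZMod 2} {H : V₁ → ZMod 2}
    (hV : ∀ q, (H q + S (a q) = 0 ∧ lap T₁ H q = 0) ∨
      (H q + S (a q) = τ q + σ (a q) ∧ lap T₁ H q = lap T₁ τ q))
    (h0 : lap T₁ H q0 = 0) : ∃ h, (∀ q, H q = h) ∧ S (a q0) = h ∧ S (a q1) = h := by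
  have hne : q0 ≠ q1 := hτ.1.ne
  have hz : ∀ q, q ≠ q0 → q ≠ q1 → lap T₁ H q = 0 := by
    intro q h1 h2
    rcases hV q with h | h
    · exact h.2
    · rw [h.2, lap_side hτ, if_neg (by tauto)]
  have h1 : lap T₁ H q1 = 0 := by
    rw [← two_sum hne hz (sum_lap T₁ H), h0]
  have hc : ∀ q, lap T₁ H q = 0 := by
    intro q
    by_cases e0 : q = q0
    · rw [e0, h0]
    · by_cases e1 : q = q1
      · rw [e1, h1]
      · exact hz q e0 e1
  have hconst := hT₁.const hc
  refine ⟨H q0, fun q => hconst q q0, ?_, ?_⟩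
  · rcases hV q0 with h | h
    · exact (eq_of_add h.1).symm
    · exfalso
      rw [h0, lap_side hτ, if_pos (Or.inl rfl)] at h
      exact absurd h.2 (by decide)
  · rcases hV q1 with h | h
    · rw [← eq_of_add h.1]; exact hconst q1 q0
    · exfalso
      rw [h1, lap_side hτ, if_pos (Or.inr rfl)] at h
      exact absurd h.2 (by decide)

/-- the part with `z` at a vertex of the first tree -/
lemma part_inl (hT₀ : TreeLike T₀) (hT₁ : TreeLike T₁) {m m' g : V₀} {σ : V₀ → ZMod 2}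
    {q0 q1 : V₁} {τ : V₁ → ZMod 2} (hσ : IsSide T₀ m m' σ) (hτ : IsSide T₁ q0 q1 τ)
    (h1 : σ (a q1) = 0) (h0 : σ (a q0) = 1) (hm : τ (b m) = 1) (hm' : τ (b m') = 0)
    {S : V₀ → ZMod 2} {H : V₁ → ZMod 2}
    (hV : ∀ q, (H q + S (a q) = 0 ∧ lap T₁ H q = 0) ∨
      (H q + S (a q) = τ q + σ (a q) ∧ lap T₁ H q = lap T₁ τ q))
    (hV0 : ∀ x, x ≠ g → (S x + H (b x) = 0 ∧ lap T₀ S x = 0) ∨
      (S x + H (b x) = σ x + τ (b x) ∧ lap T₀ S x = lap T₀ σ x))
    (hgm : g ≠ m) (hgm' : g ≠ m') (hg : lap T₀ S g = 1)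
    (hq0 : lap T₁ H q0 = 0) : False := by
  obtain ⟨h, hH, hS0, hS1⟩ := part_const hT₁ hτ hV hq0
  refine oneSide hT₀ hσ h1 h0 hS1 hS0 hgm hgm' hg ?_ ?_ ?_ ?_ ?_
  · intro x hx
    rcases hV0 x hx with h | h
    · exact Or.inl h.2
    · exact Or.inr h.2
  · intro e
    rcases hV0 m (Ne.symm hgm) with h' | h'
    · rw [h'.2] at e; exact absurd e (by decide)
    · have := h'.1
      rw [hH, hσ.2.1, hm] at this
      have key : ∀ u v : ZMod 2, u + v = 0 + 1 → u = v + 1 := by decide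
      exact key _ _ this
  · intro e
    rcases hV0 m (Ne.symm hgm) with h' | h'
    · have := h'.1
      rw [hH] at this
      exact eq_of_add this
    · rw [h'.2, lap_side hσ, if_pos (Or.inl rfl)] at e; exact absurd e (by decide)
  · intro e
    rcases hV0 m' (Ne.symm hgm') with h' | h'
    · rw [h'.2] at e; exact absurd e (by decide)
    · have := h'.1
      rw [hH, hσ.2.2.1, hm'] at this
      have key : ∀ u v : ZMod 2, u + v = 1 + 0 → u = v + 1 := by decide
      exact key _ _ this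
  · intro e
    rcases hV0 m' (Ne.symm hgm') with h' | h'
    · have := h'.1
      rw [hH] at this
      exact eq_of_add this
    · rw [h'.2, lap_side hσ, if_pos (Or.inr rfl)] at e; exact absurd e (by decide)

/-- the part with `z` at the root -/
lemma part_none (hT₀ : TreeLike T₀) (hT₁ : TreeLike T₁) {m m' : V₀} {σ : V₀ → ZMod 2}
    {q0 q1 : V₁} {τ : V₁ → ZMod 2} (hσ : IsSide T₀ m m' σ) (hτ : IsSide T₁ q0 q1 τ)
    (h1 : σ (a q1) = 0) (h0 : σ (a q0) = 1)
    {S : V₀ → ZMod 2} {H : V₁ → ZMod 2}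
    (hV : ∀ q, (H q + S (a q) = 0 ∧ lap T₁ H q = 0) ∨
      (H q + S (a q) = τ q + σ (a q) ∧ lap T₁ H q = lap T₁ τ q))
    (hV0 : ∀ x, (1 + (S x + H (b x)) = 0 ∧ lap T₀ S x = 0) ∨
      (1 + (S x + H (b x)) = σ x + τ (b x) ∧ lap T₀ S x = lap T₀ σ x))
    (hq0 : lap T₁ H q0 = 0) : False := by
  obtain ⟨h, hH, hS0, hS1⟩ := part_const hT₁ hτ hV hq0
  have hne : m ≠ m' := hσ.1.ne
  have hz : ∀ x, x ≠ m → x ≠ m' → lap T₀ S x = 0 := by
    intro x e e'
    rcases hV0 x with h | h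
    · exact h.2
    · rw [h.2, lap_side hσ, if_neg (by tauto)]
  have hs := two_sum hne hz (sum_lap T₀ S)
  rcases zt (lap T₀ S m) with e | e
  · have e' : lap T₀ S m' = 0 := by rw [← hs, e]
    have hc : ∀ x, lap T₀ S x = 0 := by
      intro x
      by_cases e0 : x = m
      · rw [e0, e]
      · by_cases e1 : x = m'
        · rw [e1, e']
        · exact hz x e0 e1
    have hconst := hT₀.const hc m (a q0)
    rcases hV0 m with h' | h'
    · have := h'.1
      rw [hH, hconst, hS0, add_self] at this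
      exact absurd this (by decide)
    · rw [h'.2, lap_side hσ, if_pos (Or.inl rfl)] at e; exact absurd e (by decide)
  · have e' : lap T₀ S m' = 1 := by rw [← hs, e]
    have hc : ∀ x, lap T₀ (fun y => S y + σ y) x = 0 := by
      intro x
      rw [lap_add, lap_side hσ]
      by_cases e0 : x = m
      · rw [e0, e, if_pos (Or.inl rfl)]; decide
      · by_cases e1 : x = m'
        · rw [e1, e', if_pos (Or.inr rfl)]; decide
        · rw [hz x e0 e1, if_neg (by tauto)]; decide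
    have hconst := hT₀.const hc (a q0) (a q1)
    simp only [hS0, hS1, h0, h1] at hconst
    have key : ∀ u : ZMod 2, u + 1 = u + 0 → False := by decide
    exact key _ hconst

end two

/-! ### the code -/

section code
variable {V₀ V₁ : Type} [Fintype V₀] [DecidableEq V₀] [Fintype V₁] [DecidableEq V₁]
variable (T₀ : SimpleGraph V₀) [DecidableRel T₀.Adj] (T₁ : SimpleGraph V₁) [DecidableRel T₁.Adj]
variable (φ₀ : V₀ → ZMod 2) (φ₁ : V₁ → ZMod 2) (a : V₁ → V₀) (b : V₀ → V₁)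

/-- the words of the two-tree code which are `0` at the root -/
def wd (S : V₀ → ZMod 2) (H : V₁ → ZMod 2) : Option (V₀ ⊕ V₁) → K
  | none => 0
  | some (Sum.inl x) => (S x + H (b x), (S x + H (b x)) * φ₀ x + lap T₀ S x)
  | some (Sum.inr q) => (H q + S (a q), (H q + S (a q)) * φ₁ q + lap T₁ H q)

/-- the pointed word of the first tree -/
def m0 (V₁ : Type) (φ₀ : V₀ → ZMod 2) : Option (V₀ ⊕ V₁) → K
  | none => z
  | some (Sum.inl x) => (1, φ₀ x)
  | some (Sum.inr _) => 0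

lemma pr_zero {A p l : ZMod 2} : ((A, A * p + l) : K) = 0 ↔ A = 0 ∧ l = 0 := by
  revert A p l; decide

lemma pr_eq {A B p l l' : ZMod 2} :
    ((A, A * p + l) : K) = (B, B * p + l') ↔ A = B ∧ l = l' := by
  revert A B p l l'; decide

lemma pr_z {A p l : ZMod 2} : ((A, A * p + l) : K) = z ↔ A = 0 ∧ l = 1 := by
  revert A p l; decide

variable {T₀ T₁ φ₀ φ₁ a b}

lemma wd_add (S S' : V₀ → ZMod 2) (H H' : V₁ → ZMod 2) :
    wd T₀ T₁ φ₀ φ₁ a b S H + wd T₀ T₁ φ₀ φ₁ a b S' H'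
      = wd T₀ T₁ φ₀ φ₁ a b (fun x => S x + S' x) (fun q => H q + H' q) := by
  funext v
  rcases v with _ | x | q
  · simp [wd]
  · simp only [wd, Pi.add_apply, lap_add, Prod.mk_add_mk]
    refine Prod.ext ?_ ?_ <;> simp only <;> ring
  · simp only [wd, Pi.add_apply, lap_add, Prod.mk_add_mk]
    refine Prod.ext ?_ ?_ <;> simp only <;> ring

lemma gadj_of_form (h : ∀ (S : V₀ → ZMod 2) (H : V₁ → ZMod 2),
    form (wd T₀ T₁ φ₀ φ₁ a b S (fun _ => 0)) (wd T₀ T₁ φ₀ φ₁ a b (fun _ => 0) H) = 0) :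
    Gadj T₀ T₁ a b := by
  intro S H
  have e := h S H
  simp only [form, Fintype.sum_option, Fintype.sum_sum_type, wd, kf, lap_const] at e
  apply eq_of_add
  rw [← e]
  have z0 : ((0 : K).1 * (0 : K).2 + (0 : K).2 * (0 : K).1) = 0 := by decide
  rw [z0, zero_add]
  congr 1
  · refine Finset.sum_congr rfl fun x _ => ?_
    generalize S x = s; generalize H (b x) = t; generalize φ₀ x = p
    generalize lap T₀ S x = l
    revert s t p l; decide
  · refine Finset.sum_congr rfl fun q _ => ?_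
    generalize S (a q) = s; generalize H q = t; generalize φ₁ q = p
    generalize lap T₁ H q = l
    revert s t p l; decide

/-- a part of the word `wd σ τ` -/
lemma part_dist {S σ : V₀ → ZMod 2} {H τ : V₁ → ZMod 2} :
    (∀ x, (wd T₀ T₁ φ₀ φ₁ a b S H (some (Sum.inl x)) = 0 ∨
      wd T₀ T₁ φ₀ φ₁ a b S H (some (Sum.inl x)) = wd T₀ T₁ φ₀ φ₁ a b σ τ (some (Sum.inl x))) →
      (S x + H (b x) = 0 ∧ lap T₀ S x = 0) ∨
      (S x + H (b x) = σ x + τ (b x) ∧ lap T₀ S x = lap T₀ σ x)) ∧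
    (∀ q, (wd T₀ T₁ φ₀ φ₁ a b S H (some (Sum.inr q)) = 0 ∨
      wd T₀ T₁ φ₀ φ₁ a b S H (some (Sum.inr q)) = wd T₀ T₁ φ₀ φ₁ a b σ τ (some (Sum.inr q))) →
      (H q + S (a q) = 0 ∧ lap T₁ H q = 0) ∨
      (H q + S (a q) = τ q + σ (a q) ∧ lap T₁ H q = lap T₁ τ q)) := by
  refine ⟨?_, ?_⟩
  · intro x h
    simp only [wd, pr_zero, pr_eq] at h
    exact h
  · intro q h
    simp only [wd, pr_zero, pr_eq] at h
    exact h

/-- no part of a direct pair is pointed -/
lemma no_part (hT₀ : TreeLike T₀) (hT₁ : TreeLike T₁)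
    {L : Submodule (ZMod 2) (Option (V₀ ⊕ V₁) → K)}
    (hm0 : m0 V₁ φ₀ ∈ L)
    (hall : ∀ u ∈ L, u none = 0 → ∃ S H, u = wd T₀ T₁ φ₀ φ₁ a b S H)
    {m m' : V₀} {σ : V₀ → ZMod 2} {q0 q1 : V₁} {τ : V₁ → ZMod 2}
    (hσ : IsSide T₀ m m' σ) (hτ : IsSide T₁ q0 q1 τ) (h1 : σ (a q1) = 0) (h0 : σ (a q0) = 1)
    (hm : τ (b m) = 1) (hm' : τ (b m') = 0)
    {c : Option (V₀ ⊕ V₁) → K} (hc : c ∈ L) {g : Option (V₀ ⊕ V₁)} (hcg : c g = z)
    (hwg : wd T₀ T₁ φ₀ φ₁ a b σ τ g = 0)
    (hcv : ∀ v, v ≠ g → c v = 0 ∨ c v = wd T₀ T₁ φ₀ φ₁ a b σ τ v) :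
    (∀ q, g ≠ some (Sum.inr q)) → c (some (Sum.inr q0)) = 0 → False := by
  intro hg hq0
  rcases g with _ | x | q
  · -- the root
    have hcm : c + m0 V₁ φ₀ ∈ L := L.add_mem hc hm0
    obtain ⟨S, H, hSH⟩ := hall _ hcm (by
      simp only [Pi.add_apply, hcg, m0]; decide)
    have hc' : ∀ v, c v = m0 V₁ φ₀ v + wd T₀ T₁ φ₀ φ₁ a b S H v := by
      intro v
      rw [← hSH, Pi.add_apply]
      have : ∀ p q : K, p = q + (p + q) := by decide
      exact this _ _
    have hr : ∀ q, c (some (Sum.inr q)) = wd T₀ T₁ φ₀ φ₁ a b S H (some (Sum.inr q)) := by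
      intro q
      rw [hc']; simp [m0]
    refine part_none (b := b) hT₀ hT₁ hσ hτ h1 h0 (S := S) (H := H) ?_ ?_ ?_
    · intro q
      have := hcv (some (Sum.inr q)) (by simp)
      rw [hr] at this
      exact (part_dist (φ₀ := φ₀) (b := b)).2 q this
    · intro x
      have := hcv (some (Sum.inl x)) (by simp)
      rw [hc'] at this
      simp only [m0, wd] at this
      have key : ∀ A p l : ZMod 2, ((1, p) : K) + (A, A * p + l) = (1 + A, (1 + A) * p + l) := by
        decide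
      rw [key, pr_zero, pr_eq] at this
      exact this
    · have := hq0
      rw [hr] at this
      simp only [wd, pr_zero] at this
      exact this.2
  · -- a vertex of the first tree
    have hn : c none = 0 := by
      rcases hcv none (by simp) with h | h
      · exact h
      · rw [h]; rfl
    obtain ⟨S, H, hSH⟩ := hall c hc hn
    subst hSH
    have hxm : ∀ y, σ y + τ (b y) = 1 → x ≠ y := by
      rintro y hy rfl
      simp only [wd, pr_zero] at hwg
      rw [hwg.1] at hy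
      exact absurd hy (by decide)
    have hz := hcg
    simp only [wd, pr_z] at hz
    refine part_inl hT₀ hT₁ (g := x) hσ hτ h1 h0 hm hm' (S := S) (H := H) ?_ ?_ ?_ ?_ hz.2 ?_
    · intro q
      exact (part_dist (φ₀ := φ₀) (b := b)).2 q (hcv (some (Sum.inr q)) (by simp))
    · intro y hy
      exact (part_dist (φ₁ := φ₁) (a := a)).1 y (hcv (some (Sum.inl y)) (by
        intro h
        apply hy
        simpa using h))
    · apply hxm; rw [hσ.2.1, hm]; decide
    · apply hxm; rw [hσ.2.2.1, hm']; decide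
    · simp only [wd, pr_zero] at hq0
      exact hq0.2
  · exact hg q rfl

/-- the word `wd σ τ` of a direct pair splits only if ... : there is no direct pair -/
lemma ndp_half (hT₀ : TreeLike T₀) (hT₁ : TreeLike T₁)
    {L : Submodule (ZMod 2) (Option (V₀ ⊕ V₁) → K)}
    (hm0 : m0 V₁ φ₀ ∈ L)
    (hall : ∀ u ∈ L, u none = 0 → ∃ S H, u = wd T₀ T₁ φ₀ φ₁ a b S H)
    {m m' : V₀} {σ : V₀ → ZMod 2} {q0 q1 : V₁} {τ : V₁ → ZMod 2}
    (hσ : IsSide T₀ m m' σ) (hτ : IsSide T₁ q0 q1 τ) (h1 : σ (a q1) = 0) (h0 : σ (a q0) = 1)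
    (hm : τ (b m) = 1) (hm' : τ (b m') = 0) {g : Option (V₀ ⊕ V₁)}
    (hs : ∃ c₁ ∈ L, ∃ c₂ ∈ L, c₁ + c₂ = wd T₀ T₁ φ₀ φ₁ a b σ τ ∧ c₁ g = z ∧ c₂ g = z ∧
      ∀ v, v ≠ g → c₁ v = 0 ∨ c₂ v = 0) (hg : ∀ q, g ≠ some (Sum.inr q)) : False := by
  obtain ⟨c₁, hc₁, c₂, hc₂, hsum, hg1, hg2, hd⟩ := hs
  have hwg : wd T₀ T₁ φ₀ φ₁ a b σ τ g = 0 := by
    rw [← hsum, Pi.add_apply, hg1, hg2]; decide
  have hv1 : ∀ v, v ≠ g → c₁ v = 0 ∨ c₁ v = wd T₀ T₁ φ₀ φ₁ a b σ τ v := by
    intro v hv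
    rcases hd v hv with h | h
    · exact Or.inl h
    · right; rw [← hsum, Pi.add_apply, h, add_zero]
  have hv2 : ∀ v, v ≠ g → c₂ v = 0 ∨ c₂ v = wd T₀ T₁ φ₀ φ₁ a b σ τ v := by
    intro v hv
    rcases hd v hv with h | h
    · right; rw [← hsum, Pi.add_apply, h, zero_add]
    · exact Or.inl h
  rcases hd (some (Sum.inr q0)) (Ne.symm (hg q0)) with h | h
  · exact no_part hT₀ hT₁ hm0 hall hσ hτ h1 h0 hm hm' hc₁ hg1 hwg hv1 hg h
  · exact no_part hT₀ hT₁ hm0 hall hσ hτ h1 h0 hm hm' hc₂ hg2 hwg hv2 hg h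

/-- exchange of the two trees -/
def sw (u : Option (V₀ ⊕ V₁) → K) : Option (V₁ ⊕ V₀) → K := fun v => u (v.map Sum.swap)

lemma sw_sw (u : Option (V₀ ⊕ V₁) → K) : sw (sw u) = u := by
  funext v
  rcases v with _ | x | q <;> rfl

lemma sw_wd (S : V₀ → ZMod 2) (H : V₁ → ZMod 2) :
    sw (wd T₀ T₁ φ₀ φ₁ a b S H) = wd T₁ T₀ φ₁ φ₀ b a H S := by
  funext v
  rcases v with _ | x | q <;> rfl

variable (V₀ V₁) in
/-- exchange as a linear map -/
def swL : (Option (V₀ ⊕ V₁) → K) →ₗ[ZMod 2] (Option (V₁ ⊕ V₀) → K) where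
  toFun := sw
  map_add' := fun _ _ => rfl
  map_smul' := fun _ _ => rfl

/-- **two trees**: the guards of a code of two trees, tight and critical at the root, are constant -/
theorem guards_const' (h₀ : TreeLike T₀) (h₁ : TreeLike T₁)
    {L : Submodule (ZMod 2) (Option (V₀ ⊕ V₁) → K)}
    (iso : ∀ u ∈ L, ∀ v ∈ L, form u v = 0) (hz : NoZ L) (hcrit : CritAt L none)
    (hwd : ∀ S H, wd T₀ T₁ φ₀ φ₁ a b S H ∈ L)
    (hm0 : m0 V₁ φ₀ ∈ L)
    (hall : ∀ u ∈ L, u none = 0 → ∃ S H, u = wd T₀ T₁ φ₀ φ₁ a b S H) :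
    (∀ q q', a q = a q') ∧ ∀ x x', b x = b x' := by
  have hg : Gadj T₀ T₁ a b := gadj_of_form (φ₀ := φ₀) (φ₁ := φ₁)
    (fun S H => iso _ (hwd _ _) _ (hwd _ _))
  -- the words of the exchanged code
  have hm1 : m0 V₀ φ₁ ∈ L.map (swL V₀ V₁) := by
    refine ⟨m0 V₁ φ₀ + wd T₀ T₁ φ₀ φ₁ a b (fun _ => 1) (fun _ => 0),
      L.add_mem hm0 (hwd _ _), ?_⟩
    funext v
    rcases v with _ | q | x
    · change z + (0 : K) = z
      decide
    · change (0 : K) + ((0 : ZMod 2) + 1, ((0 : ZMod 2) + 1) * φ₁ q + lap T₁ (fun _ => 0) q)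
        = (1, φ₁ q)
      rw [lap_const]
      generalize φ₁ q = p
      revert p; decide
    · change ((1, φ₀ x) : K) + ((1 : ZMod 2) + 0, ((1 : ZMod 2) + 0) * φ₀ x
        + lap T₀ (fun _ => 1) x) = 0
      rw [lap_const]
      generalize φ₀ x = p
      revert p; decide
  have hall' : ∀ u ∈ L.map (swL V₀ V₁), u none = 0 →
      ∃ S H, u = wd T₁ T₀ φ₁ φ₀ b a S H := by
    rintro _ ⟨u, hu, rfl⟩ hu0
    obtain ⟨S, H, h⟩ := hall u hu hu0
    exact ⟨H, S, by rw [h]; exact sw_wd _ _⟩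
  have hn : Ndp T₀ T₁ a b := by
    intro m m' σ q0 q1 τ hσ hτ h1 h0 hm hm'
    have hne : wd T₀ T₁ φ₀ φ₁ a b σ τ ≠ 0 := by
      intro h
      have := congrFun h (some (Sum.inl m))
      simp only [wd, Pi.zero_apply, pr_zero] at this
      have e := this.1
      rw [hσ.2.1, hm] at e
      exact absurd e (by decide)
    have hzf : ZFree (wd T₀ T₁ φ₀ φ₁ a b σ τ) := by
      intro v hv
      rcases v with _ | x | q
      · exact absurd hv (by simp only [wd]; decide)
      · simp only [wd, pr_z] at hv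
        rw [lap_side hσ] at hv
        by_cases hx : x = m
        · rw [hx, hσ.2.1, hm] at hv
          exact absurd hv.1 (by decide)
        · by_cases hx' : x = m'
          · rw [hx', hσ.2.2.1, hm'] at hv
            exact absurd hv.1 (by decide)
          · rw [if_neg (by tauto)] at hv
            exact absurd hv.2 (by decide)
      · simp only [wd, pr_z] at hv
        rw [lap_side hτ] at hv
        by_cases hx : q = q0
        · rw [hx, hτ.2.1, h0] at hv
          exact absurd hv.1 (by decide)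
        · by_cases hx' : q = q1
          · rw [hx', hτ.2.2.1, h1] at hv
            exact absurd hv.1 (by decide)
          · rw [if_neg (by tauto)] at hv
            exact absurd hv.2 (by decide)
    obtain ⟨g, hs⟩ := hcrit _ (hwd σ τ) hne hzf rfl
    by_cases hg' : ∃ q, g = some (Sum.inr q)
    · obtain ⟨q, rfl⟩ := hg'
      obtain ⟨c₁, hc₁, c₂, hc₂, hsum, hg1, hg2, hd⟩ := hs
      refine ndp_half (T₀ := T₁) (T₁ := T₀) (φ₀ := φ₁) (φ₁ := φ₀) (a := b) (b := a)
        (g := some (Sum.inl q)) h₁ h₀ hm1 hall' hτ hσ hm' hm h0 h1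
        ⟨sw c₁, ⟨c₁, hc₁, rfl⟩, sw c₂, ⟨c₂, hc₂, rfl⟩, ?_, hg1, hg2, ?_⟩ (by simp)
      · rw [← sw_wd, ← hsum]; rfl
      · intro v hv
        refine hd _ ?_
        intro h
        apply hv
        have := congrArg (Option.map Sum.swap) h
        simpa using this
    · exact ndp_half h₀ h₁ hm0 hall hσ hτ h1 h0 hm hm' hs (fun q hq => hg' ⟨q, hq⟩)
  -- crossing edges are impossible
  have key : ∀ (m m' : V₀) (σ : V₀ → ZMod 2) (q0 q1 : V₁) (τ : V₁ → ZMod 2),
      IsSide T₀ m m' σ → IsSide T₁ q0 q1 τ → (∀ x, τ (b x) = σ x) →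
      (∀ q, σ (a q) = τ q + 1) → False := by
    intro m m' σ q0 q1 τ hσ hτ hb ha
    have hmem : m0 V₁ φ₀ + wd T₀ T₁ φ₀ φ₁ a b (fun _ => 1) (fun _ => 0)
        + wd T₀ T₁ φ₀ φ₁ a b σ τ ∈ L := L.add_mem (L.add_mem hm0 (hwd _ _)) (hwd _ _)
    have h0 := hz _ hmem (by
      intro v
      rcases v with _ | x | q
      · simp only [m0, wd, Pi.add_apply]; decide
      · simp only [m0, wd, Pi.add_apply, Prod.fst_add, hb]
        generalize σ x = s
        revert s; decide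
      · simp only [m0, wd, Pi.add_apply, Prod.fst_add, ha]
        generalize τ q = s
        revert s; decide)
    have h1 := congrFun h0 none
    simp only [m0, wd, Pi.add_apply, Pi.zero_apply] at h1
    exact absurd h1 (by decide)
  refine ⟨?_, ?_⟩
  · by_contra hc
    obtain ⟨m, m', σ, q0, q1, τ, hσ, hτ, hb, ha⟩ := nonconst h₀ h₁ hg hn hc
    exact key m m' σ q0 q1 τ hσ hτ hb ha
  · by_contra hc
    obtain ⟨m, m', σ, q0, q1, τ, hσ, hτ, hb, ha⟩ := nonconst h₁ h₀ hg.swap hn.swap hc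
    -- here `σ` lives on the second tree
    have e1 := hb
    have e2 := ha
    refine key q1 q0 (fun x => τ x + 1) m m' σ hτ.symm hσ ?_ ?_
    · exact e2
    · intro q
      rw [e1 q]

/-- **two trees**, with trees of Mathlib -/
theorem guards_const (hT₀ : T₀.IsTree) (hT₁ : T₁.IsTree)
    {L : Submodule (ZMod 2) (Option (V₀ ⊕ V₁) → K)}
    (iso : ∀ u ∈ L, ∀ v ∈ L, form u v = 0) (hz : NoZ L) (hcrit : CritAt L none)
    (hwd : ∀ S H, wd T₀ T₁ φ₀ φ₁ a b S H ∈ L)
    (hm0 : m0 V₁ φ₀ ∈ L)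
    (hall : ∀ u ∈ L, u none = 0 → ∃ S H, u = wd T₀ T₁ φ₀ φ₁ a b S H) :
    (∀ q q', a q = a q') ∧ ∀ x x', b x = b x' :=
  guards_const' (treeLike_of_isTree hT₀) (treeLike_of_isTree hT₁) iso hz hcrit hwd hm0 hall

end code

end Pool.Agent.H58.K2
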