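import Pool.Agent.H58.K2.Main
import Pool.Agent.H17.TR.Skel

set_option autoImplicit false
set_option linter.unusedSectionVars false

/-!
One side of the two-part case of the rooted tree theorem (MP_a46c6f_co).
-/

namespace Pool.Agent.H58.K2

open Pool.Agent.H98.Code Pool.Agent.H26.TR Pool.Agent.H17.TR

variable {V : Type} [Fintype V] [DecidableEq V]
variable {L : Submodule (ZMod 2) (V → K)} {e : V} {D : V → K} {P : Finset (Finset V)}

/-- the words of `L` which are at most `D` on `M` -/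
def WW (L : Submodule (ZMod 2) (V → K)) (D : V → K) (M : Finset V) :
    Submodule (ZMod 2) (V → K) where
  carrier := {u | u ∈ L ∧ ∀ v ∈ M, kf (u v) (D v) = 0}
  zero_mem' := ⟨L.zero_mem, fun v _ => by simp [kf]⟩
  add_mem' := by
    rintro a b ⟨ha, ha1⟩ ⟨hb, hb1⟩
    refine ⟨L.add_mem ha hb, ?_⟩
    intro v hv
    rw [Pi.add_apply, kf_add_left, ha1 v hv, hb1 v hv, add_zero]
  smul_mem' := by
    rintro c a ⟨ha, ha1⟩
    refine ⟨L.smul_mem c ha, ?_⟩
    intro v hv
    have := ha1 v hv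
    simp only [kf, Pi.smul_apply, Prod.smul_fst, Prod.smul_snd, smul_eq_mul] at *
    linear_combination c * this

lemma mem_WW {M : Finset V} {u : V → K} :
    u ∈ WW L D M ↔ u ∈ L ∧ ∀ v ∈ M, kf (u v) (D v) = 0 := Iff.rfl

lemma part_ne_e (hd : Dec L e D P) {M : Finset V} (hM : M ∈ P) {v : V} (hv : v ∈ M) : v ≠ e := by
  rintro rfl
  exact hd.he M hM hv

/-- a word at most `D` on `M` and without letters off `M` is `0` or the word of `M` -/
theorem two_words (h : Hyp L e D) (hz : NoZ L) (hd : Dec L e D P) {M : Finset V}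
    (hM : M ∈ P) {u : V → K} (hu : u ∈ WW L D M) (hoff : ∀ v, v ∉ M → (u v).1 = 0) :
    u = 0 ∨ u = pw D e M := by
  have key : ∀ x ∈ M, ∀ w ∈ WW L D M, (∀ v, v ∉ M → (w v).1 = 0) → w x = 0 → w = 0 := by
    intro x hx w hw hwo hwx
    have h1 : (fun v : {v // v ∉ M} => w v.1) ∈ NN L D M x := by
      rw [mem_NN]
      refine ⟨w, hw.1, ?_, rfl⟩
      intro v hv
      by_cases hvx : v = x
      · rw [hvx, hwx, kf_zero_left]
      · rw [if_neg hvx]
        exact hw.2 v hv
    have h2 := nn_noz h hz hd hM hx _ h1 (fun v => hwo v.1 v.2)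
    have h3 : ∀ v, v ∉ M → w v = 0 := fun v hv => congrFun h2 ⟨v, hv⟩
    have hk : KD L D e w := by
      refine ⟨hw.1, ?_, Or.inl (h3 e (hd.he M hM))⟩
      intro v hv
      by_cases hvM : v ∈ M
      · exact (kf_eq_zero_iff _ _ (h.D_ne hv)).1 (hw.2 v hvM)
      · exact Or.inl (h3 v hvM)
    funext v
    by_cases hvM : v ∈ M
    · rcases hd.all w hk M hM with h4 | h4
      · exact absurd hwx (mem_sup.1 (h4 hx)).2
      · by_contra hne
        exact Finset.disjoint_left.1 h4 hvM (mem_sup.2 ⟨part_ne_e hd hM hvM, hne⟩)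
    · exact h3 v hvM
  obtain ⟨x, hx⟩ := Finset.nonempty_iff_ne_empty.2 (hd.ne M hM)
  have hxe := part_ne_e hd hM hx
  rcases (kf_eq_zero_iff _ _ (h.D_ne hxe)).1 (hu.2 x hx) with h0 | h1
  · exact Or.inl (key x hx u hu hoff h0)
  · right
    have hpw : pw D e M ∈ WW L D M := by
      refine ⟨hd.mem M hM, ?_⟩
      intro v hv
      rw [pw_of_mem (part_ne_e hd hM hv) hv, kf_self]
    have := key x hx (u + pw D e M) ((WW L D M).add_mem hu hpw) (by
      intro v hv
      rw [Pi.add_apply, Prod.fst_add, hoff v hv]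
      by_cases hve : v = e
      · rw [hve, pw_e]; rfl
      · rw [pw_of_notMem hve hv]; rfl) (by
      rw [Pi.add_apply, h1, pw_of_mem hxe hx, k_add_self])
    rw [w_add_eq_iff] at this
    rw [this, zero_add]

/-- one side: `M` carries the guards, `Q` the tree -/
theorem side (h : Hyp L e D) (hL : IsCode L) (hz : NoZ L) (hd : Dec L e D P)
    {M Q : Finset V} (hM : M ∈ P) (hQ : Q ∈ P) (hMQ : M ≠ Q) (hcov : ∀ v, v ≠ e → v ∈ M ∨ v ∈ Q)
    (hN : ∀ x ∈ M, ∀ H' : {v // v ∉ M} → {v // v ∉ M} → ZMod 2,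
      IsMat (NN L D M x) H' → (GrH H').IsTree) :
    ∃ (A : {v // v ∈ Q} → {v // v ∈ Q} → ZMod 2) (c : {v // v ∈ M} → {v // v ∈ Q}),
      (∀ v w, A v w = A w v) ∧ (∀ v, (D v.1).2 = ∑ m, A v m) ∧ TreeLike (GrH A) ∧
      (∀ m : {v // v ∈ Q}, ∃ y ∈ L, y e = 0 ∧
        (∀ v : {v // v ∈ Q}, y v.1 = ((if v = m then 1 else 0 : ZMod 2), A v m)) ∧
        ∀ v : {v // v ∈ M}, y v.1 = if c v = m then D v.1 else 0) ∧
      ((∀ v v', c v = c v') → ∀ x ∈ M, ∀ H' : {v // v ∉ M} → {v // v ∉ M} → ZMod 2,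
        IsMat (NN L D M x) H' → ∀ H : V → V → ZMod 2, IsMat L H → ∀ m ∈ Q,
          (∀ v ∈ M, H v m = 0) ∧
          ∀ (v : V) (hv : v ∉ M) (hm : m ∉ M), H v m = H' ⟨v, hv⟩ ⟨m, hm⟩) := by
  classical
  have heM := hd.he M hM
  have heQ := hd.he Q hQ
  have hQM : ∀ v ∈ Q, v ∉ M := fun v hv hvM =>
    Finset.disjoint_left.1 (hd.disj M hM Q hQ hMQ) hvM hv
  -- the matrices
  have hex : ∀ x : {v // v ∈ M}, ∃ H' : {v // v ∉ M} → {v // v ∉ M} → ZMod 2,
      IsMat (NN L D M x.1) H' := fun x =>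
    exists_isMat (nn_isCode h hL hd hM) (nn_noz h hz hd hM x.2)
  choose Hx hHx using hex
  have hrow : ∀ (x : {v // v ∈ M}) (H' : {v // v ∉ M} → {v // v ∉ M} → ZMod 2),
      IsMat (NN L D M x.1) H' → ∀ m : {v // v ∈ Q}, ∃ y, y ∈ WW L D M ∧ y x.1 = 0 ∧
      ∀ w : {v // v ∉ M}, y w.1 =
        ((if w = ⟨m.1, hQM m.1 m.2⟩ then 1 else 0 : ZMod 2), H' w ⟨m.1, hQM m.1 m.2⟩) := by
    intro x H' hH' m
    obtain ⟨y, hy, hy1, hy2, hy3⟩ := lift_row h hd hM x.2 hH' ⟨m.1, hQM m.1 m.2⟩
      (part_ne_e hd hQ m.2)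
    refine ⟨y, ⟨hy, ?_⟩, hy2, hy3⟩
    intro v hv
    exact (kf_eq_zero_iff _ _ (h.D_ne (part_ne_e hd hM hv))).2 (hy1 v hv)
  have hrow' := fun x => hrow x (Hx x) (hHx x)
  choose Y hYW hYx hYo using hrow'
  obtain ⟨x0v, hx0v⟩ := Finset.nonempty_iff_ne_empty.2 (hd.ne M hM)
  let x0 : {v // v ∈ M} := ⟨x0v, hx0v⟩
  -- values of `Y`
  have hYQ : ∀ x m, ∀ v : {v // v ∈ Q}, (Y x m v.1).1 = if v = m then 1 else 0 := by
    intro x m v
    rw [hYo x m ⟨v.1, hQM v.1 v.2⟩]
    by_cases hvm : v = m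
    · subst hvm; simp
    · have : ¬ ((⟨v.1, hQM v.1 v.2⟩ : {v // v ∉ M}) = ⟨m.1, hQM m.1 m.2⟩) := by
        intro h'
        exact hvm (Subtype.ext (Subtype.mk.inj h'))
      simp only [if_neg hvm, if_neg this]
  have hYe : ∀ x m, (Y x m e).1 = 0 := by
    intro x m
    rw [hYo x m ⟨e, heM⟩]
    have : ¬ ((⟨e, heM⟩ : {v // v ∉ M}) = ⟨m.1, hQM m.1 m.2⟩) := by
      intro h'
      exact heQ (by rw [show e = m.1 from congrArg Subtype.val h']; exact m.2)
    simp only [if_neg this]
  -- differences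
  have hdiff : ∀ x x' m, Y x m = Y x' m ∨ Y x m = Y x' m + pw D e M := by
    intro x x' m
    have := two_words h hz hd hM (u := Y x m + Y x' m) ((WW L D M).add_mem (hYW x m) (hYW x' m)) (by
      intro v hv
      rw [Pi.add_apply, Prod.fst_add]
      by_cases hve : v = e
      · rw [hve, hYe, hYe, add_zero]
      · have hvQ : v ∈ Q := (hcov v hve).resolve_left hv
        rw [hYQ x m ⟨v, hvQ⟩, hYQ x' m ⟨v, hvQ⟩]
        exact CharTwo.add_self_eq_zero _)
    rcases this with h1 | h1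
    · left
      rw [w_add_eq_iff, zero_add] at h1
      exact h1
    · right
      rw [w_add_eq_iff] at h1
      rw [h1, add_comm]
  have hpwQ : ∀ v ∈ Q, pw D e M v = 0 := fun v hv =>
    pw_of_notMem (part_ne_e hd hQ hv) (hQM v hv)
  let A : {v // v ∈ Q} → {v // v ∈ Q} → ZMod 2 := fun v m => (Y x0 m v.1).2
  have hA : ∀ x m, ∀ v : {v // v ∈ Q}, (Y x m v.1).2 = A v m := by
    intro x m v
    rcases hdiff x x0 m with h1 | h1
    · rw [h1]
    · rw [h1, Pi.add_apply, hpwQ v.1 v.2, add_zero]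
  have hAH : ∀ x (v m : {v // v ∈ Q}),
      A v m = Hx x ⟨v.1, hQM v.1 v.2⟩ ⟨m.1, hQM m.1 m.2⟩ := by
    intro x v m
    rw [← hA x m v, hYo x m ⟨v.1, hQM v.1 v.2⟩]
  have hAsym : ∀ v w, A v w = A w v := by
    intro v w
    rw [hAH x0 v w, hAH x0 w v, (hHx x0).sym]
  have hYQ' : ∀ x m, ∀ v : {v // v ∈ Q},
      Y x m v.1 = ((if v = m then 1 else 0 : ZMod 2), A v m) := by
    intro x m v
    apply Prod.ext
    · exact hYQ x m v
    · exact hA x m v
  -- sums of the rows
  have hsumW : ∀ x (f : {v // v ∈ Q} → ZMod 2), ∑ m, f m • Y x m ∈ WW L D M := fun x f =>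
    Submodule.sum_mem _ (fun m _ => Submodule.smul_mem _ _ (hYW x m))
  have hsumv : ∀ x (f : {v // v ∈ Q} → ZMod 2) (v : V),
      (∑ m, f m • Y x m) v = ∑ m, f m • (Y x m v) := by
    intro x f v
    rw [Finset.sum_apply]
    rfl
  have hsum1 : ∀ x (f : {v // v ∈ Q} → ZMod 2) (v : {v // v ∈ Q}),
      ((∑ m, f m • Y x m) v.1).1 = f v := by
    intro x f v
    rw [hsumv, Prod.fst_sum]
    simp only [Prod.smul_fst, hYQ x _ v, smul_eq_mul, mul_ite, mul_one, mul_zero,
      Finset.sum_ite_eq, Finset.mem_univ, if_true]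
  have hsum2 : ∀ x (f : {v // v ∈ Q} → ZMod 2) (v : {v // v ∈ Q}),
      ((∑ m, f m • Y x m) v.1).2 = ∑ m, f m * A v m := by
    intro x f v
    rw [hsumv, Prod.snd_sum]
    simp only [Prod.smul_snd, hA x _ v, smul_eq_mul]
  have hsume : ∀ x (f : {v // v ∈ Q} → ZMod 2), ((∑ m, f m • Y x m) e).1 = 0 := by
    intro x f
    rw [hsumv, Prod.fst_sum]
    apply Finset.sum_eq_zero
    intro m _
    rw [Prod.smul_fst, hYe, smul_zero]
  -- the word of `Q` is the sum of all rows
  have hpwQsum : ∀ x, ∑ m, (1 : ZMod 2) • Y x m = pw D e Q := by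
    intro x
    have hW : pw D e Q ∈ WW L D M := by
      refine ⟨hd.mem Q hQ, ?_⟩
      intro v hv
      rw [pw_of_notMem (part_ne_e hd hM hv)
        (fun hvQ => hQM v hvQ hv), kf_zero_left]
    have := two_words h hz hd hM (u := ∑ m, (1 : ZMod 2) • Y x m + pw D e Q)
      ((WW L D M).add_mem (hsumW x (fun _ => 1)) hW) (by
      intro v hv
      rw [Pi.add_apply, Prod.fst_add]
      by_cases hve : v = e
      · rw [hve, hsume x (fun _ => 1), pw_e]; rfl
      · have hvQ : v ∈ Q := (hcov v hve).resolve_left hv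
        rw [hsum1 x (fun _ => 1) ⟨v, hvQ⟩, pw_of_mem hve hvQ, h.letter v hve]
        decide)
    rcases this with h1 | h1
    · rw [w_add_eq_iff, zero_add] at h1
      exact h1
    · exfalso
      have h2 := congrFun h1 x.1
      have hxe := part_ne_e hd hM x.2
      rw [Pi.add_apply, hsumv x (fun _ => 1), pw_of_mem hxe x.2,
        pw_of_notMem hxe (fun hvQ => hQM x.1 hvQ x.2), add_zero] at h2
      rw [Finset.sum_eq_zero] at h2
      · exact h.D_ne hxe h2.symm
      · intro m _
        rw [hYx, smul_zero]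
  have hD2 : ∀ v : {v // v ∈ Q}, (D v.1).2 = ∑ m, A v m := by
    intro v
    have h1 := congrArg Prod.snd (congrFun (hpwQsum x0) v.1)
    rw [hsum2 x0 (fun _ => 1) v, pw_of_mem (part_ne_e hd hQ v.2) v.2] at h1
    rw [← h1]
    simp
  -- the graph
  have hadj : ∀ v w : {v // v ∈ Q}, (GrH A).Adj v w ↔ v ≠ w ∧ A v w = 1 := by
    intro v w
    unfold GrH
    rw [SimpleGraph.fromRel_adj, hAsym w v, or_self]
  have hadj' : ∀ x (v w : {v // v ∈ Q}), (GrH A).Adj v w ↔
      (GrH (Hx x)).Adj ⟨v.1, hQM v.1 v.2⟩ ⟨w.1, hQM w.1 w.2⟩ := by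
    intro x v w
    rw [hadj, (hHx x).adj, hAH x v w]
    constructor
    · rintro ⟨h1, h2⟩
      exact ⟨fun h' => h1 (Subtype.ext (Subtype.mk.inj h')), h2⟩
    · rintro ⟨h1, h2⟩
      refine ⟨fun h' => h1 ?_, h2⟩
      rw [h']
  have hconn : ∀ f : {v // v ∈ Q} → ZMod 2, (∀ x y, (GrH A).Adj x y → f x = f y) →
      ∀ x y, f x = f y := by
    intro f hf
    have hval : ∀ v : {v // v ∈ Q}, (∑ m, f m • Y x0 m) v.1 = f v • D v.1 := by
      intro v
      apply Prod.ext
      · rw [hsum1 x0 f v, Prod.smul_fst, h.letter v.1 (part_ne_e hd hQ v.2), smul_eq_mul, mul_one]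
      · rw [hsum2 x0 f v, Prod.smul_snd, hD2, smul_eq_mul, Finset.mul_sum]
        refine Finset.sum_congr rfl fun m _ => ?_
        by_cases hvm : v = m
        · rw [hvm]
        · by_cases hA1 : A v m = 1
          · rw [hf v m ((hadj v m).2 ⟨hvm, hA1⟩)]
          · have : A v m = 0 := by
              rcases zt (A v m) with h' | h'
              · exact h'
              · exact absurd h' hA1
            rw [this, mul_zero, mul_zero]
    have hk : KD L D e (∑ m, f m • Y x0 m) := by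
      refine ⟨(hsumW x0 f).1, ?_, K_cases _ (hsume x0 f)⟩
      intro v hv
      rcases hcov v hv with hvM | hvQ
      · exact (kf_eq_zero_iff _ _ (h.D_ne hv)).1 ((hsumW x0 f).2 v hvM)
      · rw [hval ⟨v, hvQ⟩]
        rcases zt (f ⟨v, hvQ⟩) with h' | h'
        · left; rw [h', zero_smul]
        · right; rw [h', one_smul]
    intro x y
    rcases hd.all _ hk Q hQ with h1 | h1
    · have : ∀ v : {v // v ∈ Q}, f v = 1 := by
        intro v
        have h2 := (mem_sup.1 (h1 v.2)).2
        rw [hval v] at h2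
        rcases zt (f v) with h' | h'
        · rw [h', zero_smul] at h2
          exact absurd rfl h2
        · exact h'
      rw [this x, this y]
    · have : ∀ v : {v // v ∈ Q}, f v = 0 := by
        intro v
        have hve := part_ne_e hd hQ v.2
        by_contra h'
        have h'' : f v = 1 := (zt (f v)).resolve_left h'
        refine Finset.disjoint_left.1 h1 v.2 (mem_sup.2 ⟨hve, ?_⟩)
        rw [hval v, h'', one_smul]
        exact h.D_ne hve
      rw [this x, this y]
  have hside : ∀ m m', (GrH A).Adj m m' → ∃ σ, IsSide (GrH A) m m' σ := by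
    intro m m' hmm
    obtain ⟨σ, s1, s2, s3, s4⟩ := (treeLike_of_isTree (hN x0.1 x0.2 (Hx x0) (hHx x0))).side _ _
      ((hadj' x0 m m').1 hmm)
    refine ⟨fun v => σ ⟨v.1, hQM v.1 v.2⟩, hmm, s2, s3, ?_⟩
    intro x y hxy hne
    rcases s4 _ _ ((hadj' x0 x y).1 hxy) hne with ⟨h1, h2⟩ | ⟨h1, h2⟩
    · exact Or.inl ⟨Subtype.ext (Subtype.mk.inj h1), Subtype.ext (Subtype.mk.inj h2)⟩
    · exact Or.inr ⟨Subtype.ext (Subtype.mk.inj h1), Subtype.ext (Subtype.mk.inj h2)⟩
  -- the neighbour of `e`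
  have hYe2 : ∀ x m, (Y x m e).2 = Hx x ⟨e, heM⟩ ⟨m.1, hQM m.1 m.2⟩ := by
    intro x m
    rw [hYo x m ⟨e, heM⟩]
  have hcex : ∀ x, ∃ m, (Y x m e).2 = 1 := by
    intro x
    by_contra hcon
    push Not at hcon
    have h1 := congrArg Prod.snd (congrFun (hpwQsum x) e)
    rw [hsumv x (fun _ => 1), Prod.snd_sum, pw_e, Finset.sum_eq_zero] at h1
    · exact absurd h1 (by decide)
    · intro m _
      rw [one_smul]
      rcases zt (Y x m e).2 with h' | h'
      · exact h'
      · exact absurd h' (hcon m)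
  choose c hc using hcex
  have hcuniq : ∀ x m, (Y x m e).2 = 1 → m = c x := by
    intro x m hm
    by_contra hne
    have hmadj : ∀ m : {v // v ∈ Q}, (Y x m e).2 = 1 →
        (GrH (Hx x)).Adj ⟨e, heM⟩ ⟨m.1, hQM m.1 m.2⟩ := by
      intro m hm
      rw [(hHx x).adj, ← hYe2 x m]
      refine ⟨?_, hm⟩
      intro h'
      exact heQ (by rw [show e = m.1 from congrArg Subtype.val h']; exact m.2)
    obtain ⟨σ, s1, s2, s3, s4⟩ := (treeLike_of_isTree (hN x.1 x.2 (Hx x) (hHx x))).side _ _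
      (hmadj m hm)
    have h1 : σ ⟨(c x).1, hQM (c x).1 (c x).2⟩ = 0 := by
      by_contra hcon
      rcases s4 _ _ (hmadj (c x) (hc x)) (fun h' => hcon (by rw [← h', s2])) with ⟨-, h2⟩ | ⟨h2, -⟩
      · exact hne (Subtype.ext (Subtype.mk.inj h2)).symm
      · exact heQ (by rw [show e = m.1 from congrArg Subtype.val h2]; exact m.2)
    have h2 := hconn (fun v => σ ⟨v.1, hQM v.1 v.2⟩) (by
      intro v w hvw
      by_contra hne'
      rcases s4 _ _ ((hadj' x v w).1 hvw) hne' with ⟨h3, -⟩ | ⟨-, h3⟩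
      · exact heQ (by rw [← show v.1 = e from congrArg Subtype.val h3]; exact v.2)
      · exact heQ (by rw [← show w.1 = e from congrArg Subtype.val h3]; exact w.2)) m (c x)
    simp only [s3, h1] at h2
    exact absurd h2 (by decide)
  have hYev : ∀ x m, Y x m e = if c x = m then z else 0 := by
    intro x m
    apply Prod.ext
    · rw [hYe]
      by_cases h' : c x = m
      · rw [if_pos h']; rfl
      · rw [if_neg h']; rfl
    · by_cases h' : c x = m
      · rw [if_pos h', ← h', hc]; rfl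
      · rw [if_neg h']
        rcases zt (Y x m e).2 with h2 | h2
        · exact h2
        · exact absurd (hcuniq x m h2).symm h'
  have hpwM : ∀ x : {v // v ∈ M}, pw D e M x.1 = D x.1 := fun x =>
    pw_of_mem (part_ne_e hd hM x.2) x.2
  refine ⟨A, c, hAsym, hD2, ⟨hconn, hside⟩, ?_, ?_⟩
  · intro m
    refine ⟨Y x0 m + (if c x0 = m then pw D e M else 0), ?_, ?_, ?_, ?_⟩
    · refine L.add_mem (hYW x0 m).1 ?_
      by_cases h' : c x0 = m
      · rw [if_pos h']; exact hd.mem M hM
      · rw [if_neg h']; exact L.zero_mem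
    · rw [Pi.add_apply, hYev x0 m]
      by_cases h' : c x0 = m
      · rw [if_pos h', if_pos h', pw_e, k_add_self]
      · rw [if_neg h', if_neg h']; rfl
    · intro v
      rw [Pi.add_apply, hYQ' x0 m v]
      by_cases h' : c x0 = m
      · rw [if_pos h', hpwQ v.1 v.2, add_zero]
      · rw [if_neg h', Pi.zero_apply, add_zero]
    · intro x
      have hxe := h.D_ne (part_ne_e hd hM x.2)
      rw [Pi.add_apply]
      rcases hdiff x0 x m with h1 | h1
      · have h2 := congrFun h1 e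
        rw [hYev, hYev] at h2
        rw [h1, hYx x m, zero_add]
        by_cases h' : c x0 = m
        · have h'' : c x = m := by
            by_contra hcon
            rw [if_pos h', if_neg hcon] at h2
            exact absurd h2 (by decide)
          rw [if_pos h', if_pos h'', hpwM x]
        · have h'' : ¬ c x = m := by
            intro hcon
            rw [if_neg h', if_pos hcon] at h2
            exact absurd h2 (by decide)
          rw [if_neg h', if_neg h'', Pi.zero_apply]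
      · have h2 := congrFun h1 e
        rw [Pi.add_apply, hYev, hYev, pw_e] at h2
        rw [h1, Pi.add_apply, hYx x m, zero_add, hpwM x]
        by_cases h' : c x0 = m
        · have h'' : ¬ c x = m := by
            intro hcon
            rw [if_pos h', if_pos hcon] at h2
            exact absurd h2 (by decide)
          rw [if_pos h', if_neg h'', hpwM x, k_add_self]
        · have h'' : c x = m := by
            by_contra hcon
            rw [if_neg h', if_neg hcon] at h2
            exact absurd h2 (by decide)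
          rw [if_neg h', if_pos h'', Pi.zero_apply, add_zero]
  · intro hconst x hx H' hH' H hH m hm
    obtain ⟨y, hyW, hyx, hyo⟩ := hrow ⟨x, hx⟩ H' hH' ⟨m, hm⟩
    have hmM := hQM m hm
    -- `y` is the row of the chosen matrix
    have hy1 : y = Y ⟨x, hx⟩ ⟨m, hm⟩ := by
      have := two_words h hz hd hM (u := y + Y ⟨x, hx⟩ ⟨m, hm⟩)
        ((WW L D M).add_mem hyW (hYW _ _)) (by
        intro v hv
        rw [Pi.add_apply, Prod.fst_add, hyo ⟨v, hv⟩, hYo ⟨x, hx⟩ ⟨m, hm⟩ ⟨v, hv⟩]
        exact CharTwo.add_self_eq_zero _)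
      rcases this with h1 | h1
      · rw [w_add_eq_iff, zero_add] at h1
        exact h1
      · exfalso
        have h2 := congrFun h1 x
        rw [Pi.add_apply, hyx, hYx ⟨x, hx⟩ ⟨m, hm⟩, hpwM ⟨x, hx⟩, add_zero] at h2
        exact h.D_ne (part_ne_e hd hM hx) h2.symm
    have hyM : ∀ v ∈ M, y v = 0 := by
      intro v hv
      rcases hdiff ⟨x, hx⟩ ⟨v, hv⟩ ⟨m, hm⟩ with h1 | h1
      · rw [hy1, h1]
        exact hYx ⟨v, hv⟩ ⟨m, hm⟩
      · exfalso
        have h2 := congrFun h1 e
        rw [Pi.add_apply, hYev, hYev, hconst ⟨x, hx⟩ ⟨v, hv⟩, pw_e] at h2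
        by_cases h' : c ⟨v, hv⟩ = ⟨m, hm⟩
        · rw [if_pos h'] at h2
          exact absurd h2 (by decide)
        · rw [if_neg h'] at h2
          exact absurd h2 (by decide)
    -- comparison with the row of `H`
    have hr := hH.row m
    have h0 : y + (fun w => ((if w = m then 1 else 0 : ZMod 2), H w m)) = 0 := by
      apply hz _ (L.add_mem hyW.1 hr)
      intro v
      rw [Pi.add_apply, Prod.fst_add]
      by_cases hvM : v ∈ M
      · have hvm : v ≠ m := by
          rintro rfl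
          exact hmM hvM
        rw [hyM v hvM]
        simp only [if_neg hvm]
        rfl
      · rw [hyo ⟨v, hvM⟩]
        by_cases hvm : v = m
        · subst hvm
          simp only [if_true]
          decide
        · have : ¬ ((⟨v, hvM⟩ : {v // v ∉ M}) = ⟨m, hQM m hm⟩) := by
            intro h'
            exact hvm (congrArg Subtype.val h')
          simp only [if_neg this, if_neg hvm]
          decide
    have h1 : ∀ v, (y v).2 = H v m := by
      intro v
      have := congrArg Prod.snd (congrFun h0 v)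
      rw [Pi.add_apply, Prod.snd_add] at this
      exact eq_of_add this
    refine ⟨?_, ?_⟩
    · intro v hv
      rw [← h1 v, hyM v hv]
      rfl
    · intro v hv hm'
      rw [← h1 v, hyo ⟨v, hv⟩]

end Pool.Agent.H58.K2
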