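import Mathlib

set_option autoImplicit false

/-!
Laplacian modulo 2 of a tree: sides of edges, truncation, kernel.
-/

namespace Pool.Agent.H58.K2

variable {V : Type} [Fintype V] [DecidableEq V]

/-- the Laplacian modulo 2 -/
def lap (T : SimpleGraph V) [DecidableRel T.Adj] (S : V → ZMod 2) (x : V) : ZMod 2 :=
  ∑ y, if T.Adj x y then S x + S y else 0

/-- `σ` is the indicator of the side of `m'` of the edge `m m'` -/
def IsSide (T : SimpleGraph V) (m m' : V) (σ : V → ZMod 2) : Prop :=
  T.Adj m m' ∧ σ m = 0 ∧ σ m' = 1 ∧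
    ∀ x y, T.Adj x y → σ x ≠ σ y → (x = m ∧ y = m') ∨ (x = m' ∧ y = m)

/-- what is used of a tree -/
structure TreeLike (T : SimpleGraph V) : Prop where
  conn : ∀ f : V → ZMod 2, (∀ x y, T.Adj x y → f x = f y) → ∀ x y, f x = f y
  side : ∀ m m', T.Adj m m' → ∃ σ, IsSide T m m' σ

lemma zt (a : ZMod 2) : a = 0 ∨ a = 1 := by
  revert a; decide

lemma add_self (a : ZMod 2) : a + a = 0 := by
  revert a; decide

lemma eq_of_add {a b : ZMod 2} (h : a + b = 0) : a = b := by
  revert a b; decide

lemma add_ne {a b : ZMod 2} (h : a ≠ b) : a + b = 1 := by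
  revert a b; decide

lemma ne_of_add {a b : ZMod 2} (h : a + b = 1) : a ≠ b := by
  revert a b; decide

lemma IsSide.symm {T : SimpleGraph V} {m m' : V} {σ : V → ZMod 2} (h : IsSide T m m' σ) :
    IsSide T m' m (fun x => σ x + 1) := by
  obtain ⟨h1, h2, h3, h4⟩ := h
  refine ⟨h1.symm, ?_, ?_, ?_⟩
  · simp only [h3]; decide
  · simp only [h2]; decide
  · intro x y hxy hne
    have : σ x ≠ σ y := fun h => hne (by simp only [h])
    rcases h4 x y hxy this with h | h
    · exact Or.inr h
    · exact Or.inl h

variable (T : SimpleGraph V) [DecidableRel T.Adj]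

lemma lap_add (S S' : V → ZMod 2) (x : V) :
    lap T (fun y => S y + S' y) x = lap T S x + lap T S' x := by
  simp only [lap, ← Finset.sum_add_distrib]
  refine Finset.sum_congr rfl fun y _ => ?_
  by_cases h : T.Adj x y <;> simp [h] <;> ring

lemma lap_const (c : ZMod 2) (x : V) : lap T (fun _ => c) x = 0 := by
  simp only [lap]
  refine Finset.sum_eq_zero fun y _ => ?_
  by_cases h : T.Adj x y <;> simp [h, add_self]

lemma sum_lap (S : V → ZMod 2) : ∑ x, lap T S x = 0 := by
  simp only [lap]
  have key : ∀ (f : V → V → ZMod 2), (∀ x y, f x y = f y x) → (∀ x, f x x = 0) →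
      ∑ x, ∑ y, f x y = 0 := by
    intro f hs hd
    rw [← Finset.sum_product']
    refine Finset.sum_involution (fun p _ => (p.2, p.1)) ?_ ?_ ?_ ?_
    · intro p _
      simp only
      rw [hs p.2 p.1]; exact add_self _
    · intro p _ hp heq
      apply hp
      have : p.2 = p.1 := congrArg Prod.fst heq
      rw [this]; exact hd _
    · intro p _; simp
    · intro p _; rfl
  refine key _ ?_ ?_
  · intro x y
    by_cases h : T.Adj x y
    · simp only [h, h.symm, if_true]; ring
    · have h' : ¬ T.Adj y x := fun h' => h h'.symm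
      simp [h, h']
  · intro x; simp

/-- symmetry of the Laplacian -/
lemma lap_symm (S H : V → ZMod 2) : ∑ x, lap T S x * H x = ∑ x, S x * lap T H x := by
  apply eq_of_add
  rw [← Finset.sum_add_distrib]
  have h := sum_lap T (fun x => S x * H x)
  have e : ∀ x, lap T S x * H x + S x * lap T H x
      = lap T (fun x => S x * H x) x +
        ∑ y, (if T.Adj x y then (S x * H x + S y * H y + (S y * H x + S x * H y)) else 0) := by
    intro x
    simp only [lap, Finset.sum_mul, Finset.mul_sum, ← Finset.sum_add_distrib]
    refine Finset.sum_congr rfl fun y _ => ?_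
    by_cases h : T.Adj x y
    · simp only [h, if_true]
      have h2 : (2 : ZMod 2) = 0 := by decide
      linear_combination (-S y * H y) * h2
    · simp [h]
  rw [Finset.sum_congr rfl (fun x _ => e x), Finset.sum_add_distrib, h, zero_add]
  have key : ∀ (f : V → V → ZMod 2), (∀ x y, f x y = f y x) → (∀ x, f x x = 0) →
      ∑ x, ∑ y, f x y = 0 := by
    intro f hs hd
    rw [← Finset.sum_product']
    refine Finset.sum_involution (fun p _ => (p.2, p.1)) ?_ ?_ ?_ ?_
    · intro p _
      simp only
      rw [hs p.2 p.1]; exact add_self _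
    · intro p _ hp heq
      apply hp
      have : p.2 = p.1 := congrArg Prod.fst heq
      rw [this]; exact hd _
    · intro p _; simp
    · intro p _; rfl
  refine key _ ?_ ?_
  · intro x y
    by_cases h : T.Adj x y
    · simp only [h, h.symm, if_true]; ring
    · have h' : ¬ T.Adj y x := fun h' => h h'.symm
      simp [h, h']
  · intro x; simp

/-- truncation at an edge -/
lemma lap_trunc {m m' : V} {σ : V → ZMod 2} (hσ : IsSide T m m' σ) (f : V → ZMod 2) (x : V) :
    lap T (fun y => f y + σ y * (f y + f m)) x
      = (1 + σ x) * lap T f x + if x = m then f m + f m' else 0 := by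
  obtain ⟨hadj, hm, hm', hb⟩ := hσ
  have e : ∀ y, (if T.Adj x y then (f x + σ x * (f x + f m)) + (f y + σ y * (f y + f m)) else 0)
      = (1 + σ x) * (if T.Adj x y then f x + f y else 0)
        + (if x = m ∧ y = m' then f m + f m' else 0) := by
    intro y
    by_cases h : T.Adj x y
    · simp only [h, if_true]
      by_cases hs : σ x = σ y
      · have hn : ¬ (x = m ∧ y = m') := by
          rintro ⟨rfl, rfl⟩
          rw [hm, hm'] at hs
          exact absurd hs (by decide)
        rw [if_neg hn, ← hs]
        rcases zt (σ x) with h0 | h0 <;> rw [h0]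
        · ring
        · generalize f x = u; generalize f y = v; generalize f m = w
          revert u v w; decide
      · rcases hb x y h hs with ⟨rfl, rfl⟩ | ⟨rfl, rfl⟩
        · rw [hm, hm', if_pos ⟨rfl, rfl⟩]
          generalize f x = u; generalize f y = v
          revert u v; decide
        · have hn : ¬ (x = y ∧ y = x) := by
            rintro ⟨h1, _⟩
            exact h.ne h1
          rw [hm, hm', if_neg hn]
          generalize f x = u; generalize f y = v
          revert u v; decide
    · have hn : ¬ (x = m ∧ y = m') := by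
        rintro ⟨rfl, rfl⟩
        exact h hadj
      simp [h, hn]
  simp only [lap]
  rw [Finset.sum_congr rfl (fun y _ => e y), Finset.sum_add_distrib, ← Finset.mul_sum]
  congr 1
  by_cases hx : x = m
  · simp [hx]
  · simp [hx]

variable {T}

lemma TreeLike.const (hT : TreeLike T) {f : V → ZMod 2} (h : ∀ x, lap T f x = 0) :
    ∀ x y, f x = f y := by
  apply hT.conn
  intro m m' hadj
  obtain ⟨σ, hσ⟩ := hT.side m m' hadj
  have e := sum_lap T (fun y => f y + σ y * (f y + f m))
  rw [Finset.sum_congr rfl (fun x _ => lap_trunc T hσ f x)] at e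
  simp only [h, mul_zero, zero_add, Finset.sum_ite_eq', Finset.mem_univ, if_true] at e
  exact eq_of_add e

/-- the Laplacian of a side -/
lemma lap_side {m m' : V} {σ : V → ZMod 2} (hσ : IsSide T m m' σ) (x : V) :
    lap T σ x = if x = m ∨ x = m' then 1 else 0 := by
  obtain ⟨hadj, hm, hm', hb⟩ := hσ
  have hne : m ≠ m' := hadj.ne
  have e : ∀ y, (if T.Adj x y then σ x + σ y else 0)
      = (if x = m ∧ y = m' then 1 else 0) + (if x = m' ∧ y = m then 1 else 0) := by
    intro y
    by_cases h : T.Adj x y
    · simp only [h, if_true]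
      by_cases hs : σ x = σ y
      · have hn : ¬ (x = m ∧ y = m') := by
          rintro ⟨rfl, rfl⟩
          rw [hm, hm'] at hs
          exact absurd hs (by decide)
        have hn' : ¬ (x = m' ∧ y = m) := by
          rintro ⟨rfl, rfl⟩
          rw [hm, hm'] at hs
          exact absurd hs (by decide)
        rw [if_neg hn, if_neg hn', hs, add_self]; rfl
      · rcases hb x y h hs with ⟨rfl, rfl⟩ | ⟨rfl, rfl⟩
        · rw [hm, hm', if_pos ⟨rfl, rfl⟩, if_neg (fun h' => hne h'.1)]; decide
        · rw [hm, hm', if_neg (fun h' => hne h'.1.symm), if_pos ⟨rfl, rfl⟩]; decide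
    · have hn : ¬ (x = m ∧ y = m') := by
        rintro ⟨rfl, rfl⟩
        exact h hadj
      have hn' : ¬ (x = m' ∧ y = m) := by
        rintro ⟨rfl, rfl⟩
        exact h hadj.symm
      simp [h, hn, hn']
  simp only [lap]
  rw [Finset.sum_congr rfl (fun y _ => e y), Finset.sum_add_distrib]
  by_cases hx : x = m
  · subst hx
    simp [hne]
  · by_cases hx' : x = m'
    · subst hx'
      simp [hx]
    · simp [hx, hx']

/-- a potential with the sources `m, g` that changes across `m m'` is constant on the side of `m` -/
lemma TreeLike.const_side (hT : TreeLike T) {m m' g : V} {σ S : V → ZMod 2}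
    (hσ : IsSide T m m' σ) (hgm : g ≠ m)
    (hS : ∀ x, lap T S x = if x = m ∨ x = g then 1 else 0) (hc : S m ≠ S m') :
    ∀ x, σ x = 0 → S x = S m := by
  have h1 : ∀ x, lap T (fun y => S y + σ y * (S y + S m)) x
      = if x = g then (1 + σ g) else 0 := by
    intro x
    rw [lap_trunc T hσ, hS]
    by_cases hx : x = m
    · subst hx
      rw [if_pos (Or.inl rfl), if_pos rfl, add_ne hc, hσ.2.1, if_neg (fun h => hgm h.symm)]
      decide
    · rw [if_neg hx]
      by_cases hg : x = g
      · subst hg
        rw [if_pos (Or.inr rfl), if_pos rfl]; ring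
      · rw [if_neg (by tauto), if_neg hg]; ring
  have h2 := sum_lap T (fun y => S y + σ y * (S y + S m))
  rw [Finset.sum_congr rfl (fun x _ => h1 x)] at h2
  simp only [Finset.sum_ite_eq', Finset.mem_univ, if_true] at h2
  have h3 : ∀ x, lap T (fun y => S y + σ y * (S y + S m)) x = 0 := by
    intro x
    rw [h1 x, h2]; simp
  have h4 := hT.const h3
  intro x hx
  have := h4 x m
  simp only [hx, hσ.2.1, zero_mul, add_zero] at this
  exact this

end Pool.Agent.H58.K2
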