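import Pool.Agent.H58.K2.Side
import Pool.Agent.H44.TT.Hall

set_option autoImplicit false
set_option linter.unusedSectionVars false

/-!
The two-part case of the rooted tree theorem (MP_a46c6f_co).
-/

namespace Pool.Agent.H58.K2

open Pool.Agent.H98.Code Pool.Agent.H26.TR Pool.Agent.H17.TR

variable {V : Type} [Fintype V] [DecidableEq V]
variable {L : Submodule (ZMod 2) (V → K)} {e : V} {D : V → K} {P : Finset (Finset V)}

/-- the Laplacian of the graph of a matrix -/
lemma lap_GrH {W : Type} [Fintype W] [DecidableEq W] {A : W → W → ZMod 2}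
    (hs : ∀ v w, A v w = A w v) [DecidableRel (GrH A).Adj] (S : W → ZMod 2) (x : W) :
    lap (GrH A) S x = S x * ∑ m, A x m + ∑ m, S m * A x m := by
  have hadj : ∀ v w, (GrH A).Adj v w ↔ v ≠ w ∧ A v w = 1 := by
    intro v w
    unfold GrH
    rw [SimpleGraph.fromRel_adj, hs w v, or_self]
  rw [Finset.mul_sum, ← Finset.sum_add_distrib]
  unfold lap
  refine Finset.sum_congr rfl fun y _ => ?_
  by_cases hxy : x = y
  · subst hxy
    rw [if_neg (by rw [hadj]; simp)]
    exact (add_self _).symm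
  · rcases zt (A x y) with h0 | h1
    · rw [if_neg (by rw [hadj, h0]; simp), h0]
      simp
    · rw [if_pos (by rw [hadj]; exact ⟨hxy, h1⟩), h1, mul_one, mul_one]

/-- gluing, once the minors outside the parts are compared with the code -/
theorem tree_of_key (hd : Dec L e D P) {H : V → V → ZMod 2} (hH : IsMat L H)
    (h2 : 2 ≤ P.card) (H' : ∀ M : Finset V, {v // v ∉ M} → {v // v ∉ M} → ZMod 2)
    (x : Finset V → V)
    (hH' : ∀ M ∈ P, IsMat (NN L D M (x M)) (H' M)) (hT' : ∀ M ∈ P, (GrH (H' M)).IsTree)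
    (key : ∀ M ∈ P, ∀ Q ∈ P, Q ≠ M → ∀ m ∈ Q, (∀ v ∈ M, H v m = 0) ∧
      ∀ (v : V) (hv : v ∉ M) (hmM : m ∉ M), H v m = H' M ⟨v, hv⟩ ⟨m, hmM⟩) :
    (GrH H).IsTree := by
  apply glueP (GrH H) e P hd.he hd.ne hd.disj hd.cov
  · intro M hM v hv w hw hvw
    by_contra hwM
    obtain ⟨Q, hQ, hwQ⟩ := hd.cov w hw
    have hQM : Q ≠ M := by
      rintro rfl
      exact hwM hwQ
    have h1 := (key M hM Q hQ hQM w hwQ).1 v hv
    have h2 := ((hH.adj v w).1 hvw).2
    rw [h1] at h2
    exact absurd h2 (by decide)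
  · intro M hM
    have heq : (GrH H).comap (Subtype.val : {v // v ∉ M} → V) = GrH (H' M) := by
      ext v w
      rw [SimpleGraph.comap_adj, hH.adj, (hH' M hM).adj]
      have hval : v ≠ w → H v.1 w.1 = H' M v w := by
        intro hvw
        by_cases hwe : w.1 = e
        · have hve : v.1 ≠ e := by
            intro hve
            apply hvw
            apply Subtype.ext
            rw [hve, hwe]
          obtain ⟨Q, hQ, hvQ⟩ := hd.cov v.1 hve
          have hQM : Q ≠ M := by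
            rintro rfl
            exact v.2 hvQ
          rw [hH.sym, (hH' M hM).sym]
          exact (key M hM Q hQ hQM v.1 hvQ).2 w.1 w.2 v.2
        · obtain ⟨Q, hQ, hwQ⟩ := hd.cov w.1 hwe
          have hQM : Q ≠ M := by
            rintro rfl
            exact w.2 hwQ
          exact (key M hM Q hQ hQM w.1 hwQ).2 v.1 v.2 w.2
      constructor
      · rintro ⟨h1, h2⟩
        have h3 : v ≠ w := fun h4 => h1 (congrArg Subtype.val h4)
        exact ⟨h3, by rw [← hval h3]; exact h2⟩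
      · rintro ⟨h1, h2⟩
        exact ⟨fun h4 => h1 (Subtype.ext h4), by rw [hval h1]; exact h2⟩
    rw [heq]
    exact hT' M hM
  · exact h2

/-- the vertices -/
def io (e : V) (M₀ M₁ : Finset V) : Option ({v // v ∈ M₀} ⊕ {v // v ∈ M₁}) → V
  | none => e
  | some (Sum.inl x) => x.1
  | some (Sum.inr q) => q.1

/-- the words in the coordinates of the two trees -/
def pull (L : Submodule (ZMod 2) (V → K)) (e : V) (M₀ M₁ : Finset V) :
    Submodule (ZMod 2) (Option ({v // v ∈ M₀} ⊕ {v // v ∈ M₁}) → K) :=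
  L.map (LinearMap.funLeft (ZMod 2) K (io e M₀ M₁))

lemma mem_pull {M₀ M₁ : Finset V} {w : Option ({v // v ∈ M₀} ⊕ {v // v ∈ M₁}) → K} :
    w ∈ pull L e M₀ M₁ ↔ ∃ u ∈ L, w = fun i => u (io e M₀ M₁ i) := by
  unfold pull
  rw [Submodule.mem_map]
  constructor
  · rintro ⟨u, hu, rfl⟩
    exact ⟨u, hu, rfl⟩
  · rintro ⟨u, hu, rfl⟩
    exact ⟨u, hu, rfl⟩

theorem io_bij (hd : Dec L e D P) {M₀ M₁ : Finset V} (h0 : M₀ ∈ P) (h1 : M₁ ∈ P) (hne : M₀ ≠ M₁)
    (hcov : ∀ v, v ≠ e → v ∈ M₀ ∨ v ∈ M₁) : Function.Bijective (io e M₀ M₁) := by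
  have he0 := hd.he M₀ h0
  have he1 := hd.he M₁ h1
  have hdis := hd.disj M₀ h0 M₁ h1 hne
  constructor
  · intro i j hij
    rcases i with _ | x | q <;> rcases j with _ | y | r
    · rfl
    · exact absurd y.2 (by rw [← show e = y.1 from hij]; exact he0)
    · exact absurd r.2 (by rw [← show e = r.1 from hij]; exact he1)
    · exact absurd x.2 (by rw [show x.1 = e from hij]; exact he0)
    · rw [Subtype.ext (show x.1 = y.1 from hij)]
    · exact absurd r.2 (by rw [← show x.1 = r.1 from hij]; exact Finset.disjoint_left.1 hdis x.2)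
    · exact absurd q.2 (by rw [show q.1 = e from hij]; exact he1)
    · exact absurd q.2 (by rw [show q.1 = y.1 from hij]; exact Finset.disjoint_left.1 hdis y.2)
    · rw [Subtype.ext (show q.1 = r.1 from hij)]
  · intro v
    by_cases hv : v = e
    · exact ⟨none, hv.symm⟩
    · rcases hcov v hv with h | h
      · exact ⟨some (Sum.inl ⟨v, h⟩), rfl⟩
      · exact ⟨some (Sum.inr ⟨v, h⟩), rfl⟩

/-- **two parts** -/
theorem kTwo (h : Hyp L e D) (hL : IsCode L) {H : V → V → ZMod 2} (hH : IsMat L H)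
    (hd : Dec L e D P) (h2 : P.card = 2)
    (hN : ∀ M ∈ P, ∀ x ∈ M, ∀ H' : {v // v ∉ M} → {v // v ∉ M} → ZMod 2,
      IsMat (NN L D M x) H' → (GrH H').IsTree) : (GrH H).IsTree := by
  classical
  obtain ⟨M₀, M₁, hne, hP⟩ := Finset.card_eq_two.1 h2
  have hM0 : M₀ ∈ P := by rw [hP]; simp
  have hM1 : M₁ ∈ P := by rw [hP]; simp
  have hcov : ∀ v, v ≠ e → v ∈ M₀ ∨ v ∈ M₁ := by
    intro v hv
    obtain ⟨M, hM, hvM⟩ := hd.cov v hv
    rw [hP] at hM
    simp only [Finset.mem_insert, Finset.mem_singleton] at hM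
    rcases hM with rfl | rfl
    · exact Or.inl hvM
    · exact Or.inr hvM
  have hz := hH.noz
  obtain ⟨A₀, a, hA0s, hφ0, hT0, hr0, hf0⟩ := side h hL hz hd hM1 hM0 (Ne.symm hne)
    (fun v hv => (hcov v hv).symm) (hN M₁ hM1)
  obtain ⟨A₁, b, hA1s, hφ1, hT1, hr1, hf1⟩ := side h hL hz hd hM0 hM1 hne hcov (hN M₀ hM0)
  choose y₀ y0L y0e y0Q y0M using hr0
  choose y₁ y1L y1e y1Q y1M using hr1
  have hb := io_bij hd hM0 hM1 hne hcov
  let φ₀ : {v // v ∈ M₀} → ZMod 2 := fun v => (D v.1).2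
  let φ₁ : {v // v ∈ M₁} → ZMod 2 := fun v => (D v.1).2
  have hD0 : ∀ v : {v // v ∈ M₀}, D v.1 = (1, φ₀ v) := fun v =>
    Prod.ext (h.letter v.1 (part_ne_e hd hM0 v.2)) rfl
  have hD1 : ∀ v : {v // v ∈ M₁}, D v.1 = (1, φ₁ v) := fun v =>
    Prod.ext (h.letter v.1 (part_ne_e hd hM1 v.2)) rfl
  -- the words
  have hwd : ∀ (S : {v // v ∈ M₀} → ZMod 2) (R : {v // v ∈ M₁} → ZMod 2),
      wd (GrH A₀) (GrH A₁) φ₀ φ₁ a b S R ∈ pull L e M₀ M₁ := by
    intro S R
    rw [mem_pull]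
    refine ⟨∑ m, S m • y₀ m + ∑ m, R m • y₁ m, L.add_mem
      (Submodule.sum_mem _ fun m _ => Submodule.smul_mem _ _ (y0L m))
      (Submodule.sum_mem _ fun m _ => Submodule.smul_mem _ _ (y1L m)), ?_⟩
    funext i
    rcases i with _ | x | q
    · change (0 : K) = (∑ m, S m • y₀ m + ∑ m, R m • y₁ m) e
      rw [Pi.add_apply, Finset.sum_apply, Finset.sum_apply, Finset.sum_eq_zero,
        Finset.sum_eq_zero, add_zero]
      · intro m _
        rw [Pi.smul_apply, y1e, smul_zero]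
      · intro m _
        rw [Pi.smul_apply, y0e, smul_zero]
    · change (S x + R (b x), (S x + R (b x)) * φ₀ x + lap (GrH A₀) S x)
        = (∑ m, S m • y₀ m + ∑ m, R m • y₁ m) x.1
      rw [Pi.add_apply, Finset.sum_apply, Finset.sum_apply, lap_GrH hA0s, ← hφ0 x]
      have e1 : ∑ m, (R m • y₁ m) x.1 = R (b x) • D x.1 := by
        rw [Finset.sum_eq_single (b x)]
        · rw [Pi.smul_apply, y1M, if_pos rfl]
        · intro m _ hm
          rw [Pi.smul_apply, y1M, if_neg (Ne.symm hm), smul_zero]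
        · intro h'
          exact absurd (Finset.mem_univ _) h'
      have e2 : ∑ m, (S m • y₀ m) x.1 = (S x, ∑ m, S m * A₀ x m) := by
        apply Prod.ext
        · rw [Prod.fst_sum]
          simp only [Pi.smul_apply, y0Q, Prod.smul_fst, smul_eq_mul, mul_ite, mul_one, mul_zero,
            Finset.sum_ite_eq, Finset.mem_univ, if_true]
        · rw [Prod.snd_sum]
          simp only [Pi.smul_apply, y0Q, Prod.smul_snd, smul_eq_mul]
      rw [e1, e2, hD0 x]
      apply Prod.ext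
      · simp
      · simp only [Prod.snd_add, Prod.smul_snd, smul_eq_mul]
        generalize ∑ m, S m * A₀ x m = s
        generalize S x = t; generalize R (b x) = r
        change (t + r) * φ₀ x + (t * φ₀ x + s) = s + r * φ₀ x
        generalize φ₀ x = p
        revert s t r p; decide
    · change (R q + S (a q), (R q + S (a q)) * φ₁ q + lap (GrH A₁) R q)
        = (∑ m, S m • y₀ m + ∑ m, R m • y₁ m) q.1
      rw [Pi.add_apply, Finset.sum_apply, Finset.sum_apply, lap_GrH hA1s, ← hφ1 q]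
      have e1 : ∑ m, (S m • y₀ m) q.1 = S (a q) • D q.1 := by
        rw [Finset.sum_eq_single (a q)]
        · rw [Pi.smul_apply, y0M, if_pos rfl]
        · intro m _ hm
          rw [Pi.smul_apply, y0M, if_neg (Ne.symm hm), smul_zero]
        · intro h'
          exact absurd (Finset.mem_univ _) h'
      have e2 : ∑ m, (R m • y₁ m) q.1 = (R q, ∑ m, R m * A₁ q m) := by
        apply Prod.ext
        · rw [Prod.fst_sum]
          simp only [Pi.smul_apply, y1Q, Prod.smul_fst, smul_eq_mul, mul_ite, mul_one, mul_zero,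
            Finset.sum_ite_eq, Finset.mem_univ, if_true]
        · rw [Prod.snd_sum]
          simp only [Pi.smul_apply, y1Q, Prod.smul_snd, smul_eq_mul]
      rw [e1, e2, hD1 q]
      apply Prod.ext
      · simp [add_comm]
      · simp only [Prod.snd_add, Prod.smul_snd, smul_eq_mul]
        generalize ∑ m, R m * A₁ q m = s
        generalize R q = t; generalize S (a q) = r
        change (t + r) * φ₁ q + (t * φ₁ q + s) = r * φ₁ q + s
        generalize φ₁ q = p
        revert s t r p; decide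
  have hm0 : m0 {v // v ∈ M₁} φ₀ ∈ pull L e M₀ M₁ := by
    rw [mem_pull]
    refine ⟨pw D e M₀, hd.mem M₀ hM0, ?_⟩
    funext i
    rcases i with _ | x | q
    · exact pw_e.symm
    · change (1, φ₀ x) = pw D e M₀ x.1
      rw [pw_of_mem (part_ne_e hd hM0 x.2) x.2, hD0]
    · change (0 : K) = pw D e M₀ q.1
      rw [pw_of_notMem (part_ne_e hd hM1 q.2)
        (fun h' => Finset.disjoint_left.1 (hd.disj M₀ hM0 M₁ hM1 hne) h' q.2)]
  have hiso : ∀ u ∈ pull L e M₀ M₁, ∀ v ∈ pull L e M₀ M₁, form u v = 0 := by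
    intro u hu v hv
    obtain ⟨u', hu', rfl⟩ := mem_pull.1 hu
    obtain ⟨v', hv', rfl⟩ := mem_pull.1 hv
    rw [← h.iso u' hu' v' hv']
    exact hb.sum_comp (fun x => kf (u' x) (v' x))
  have hnz : NoZ (pull L e M₀ M₁) := by
    intro u hu huz
    obtain ⟨u', hu', rfl⟩ := mem_pull.1 hu
    have : u' = 0 := by
      apply hz u' hu'
      intro v
      obtain ⟨i, rfl⟩ := hb.2 v
      exact huz i
    rw [this]
    rfl
  have hcrit : CritAt (pull L e M₀ M₁) none := by
    intro u hu hu0 huf hue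
    obtain ⟨u', hu', rfl⟩ := mem_pull.1 hu
    have h0 : u' ≠ 0 := by
      intro h'
      apply hu0
      rw [h']
      rfl
    have hf : ZFree u' := by
      intro v
      obtain ⟨i, rfl⟩ := hb.2 v
      exact huf i
    obtain ⟨g, c₁, hc₁, c₂, hc₂, hsum, hg1, hg2, hdis⟩ := h.split u' hu' h0 hf hue
    obtain ⟨j, rfl⟩ := hb.2 g
    refine ⟨j, _, mem_pull.2 ⟨c₁, hc₁, rfl⟩, _, mem_pull.2 ⟨c₂, hc₂, rfl⟩, ?_, hg1, hg2, ?_⟩
    · rw [← hsum]
      rfl
    · intro i hi
      exact hdis _ (fun h' => hi (hb.1 h'))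
  have hne0 : Nonempty {v // v ∈ M₀} := by
    obtain ⟨x, hx⟩ := Finset.nonempty_iff_ne_empty.2 (hd.ne M₀ hM0)
    exact ⟨⟨x, hx⟩⟩
  have hall : ∀ u ∈ pull L e M₀ M₁, u none = 0 →
      ∃ S R, u = wd (GrH A₀) (GrH A₁) φ₀ φ₁ a b S R := by
    intro u hu hun
    exact Pool.Agent.H44.TT.hall (lap (GrH A₀)) (lap (GrH A₁)) (fun S hS => hT0.const hS)
      (fun S hS => hT1.const hS) a b φ₀ φ₁ hnz (wd (GrH A₀) (GrH A₁) φ₀ φ₁ a b)
      (fun _ _ => rfl) (fun _ _ _ => rfl) (fun _ _ _ => rfl) hwd (m0 {v // v ∈ M₁} φ₀) hm0 rfl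
      (fun _ => rfl) (fun _ => rfl) u hu hun
  obtain ⟨ha, hb'⟩ := guards_const' hT0 hT1 hiso hnz hcrit hwd hm0 hall
  -- the chosen minors
  have hex : ∀ M ∈ P, ∃ x, ∃ H' : {v // v ∉ M} → {v // v ∉ M} → ZMod 2,
      x ∈ M ∧ IsMat (NN L D M x) H' := by
    intro M hM
    obtain ⟨x, hx⟩ := Finset.nonempty_iff_ne_empty.2 (hd.ne M hM)
    obtain ⟨H', hH'⟩ := exists_isMat (nn_isCode h hL hd hM (x := x)) (nn_noz h hz hd hM hx)
    exact ⟨x, H', hx, hH'⟩
  have hneV : Nonempty V := ⟨e⟩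
  choose! x H' hx hH' using hex
  refine tree_of_key hd hH (by omega) H' x hH' (fun M hM => hN M hM (x M) (hx M hM) _ (hH' M hM)) ?_
  intro M hM Q hQ hQM m hm
  rw [hP] at hM hQ
  simp only [Finset.mem_insert, Finset.mem_singleton] at hM hQ
  rcases hM with rfl | rfl
  · rcases hQ with rfl | rfl
    · exact absurd rfl hQM
    · exact hf1 hb' (x M) (hx M hM0) (H' M) (hH' M hM0) H hH m hm
  · rcases hQ with rfl | rfl
    · exact hf0 ha (x M) (hx M hM1) (H' M) (hH' M hM1) H hH m hm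
    · exact absurd rfl hQM

theorem caseTwo : CaseTwo := by
  intro V _ _ L e H D P hL _ hH h hd h2 hN
  exact kTwo h hL hH hd h2 hN

end Pool.Agent.H58.K2
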